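import Pool.Agent.TH526.PM.LatM
import Pool.Agent.W613.PC.Lowb

/-!
# The argument of Duminil-Copin and Tassion for mixed percolation, sites of fixed density

The density of the sites is fixed and the probability of the bonds varies.  The sites at the
boundary of the explored cluster are opened at a bounded cost.
-/

set_option autoImplicit false
set_option linter.all false
set_option linter.deprecated false

open MeasureTheory Set

namespace TH526.PM

open Pool.Agent.W783.PC Pool.Agent.W424.PC Pool.Agent.W462.PC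

variable {n : ℕ}

lemma real_indep (hI : S_indep) {ι : Type} (r : ι → unitInterval) {S T : Set ι}
    {A B : Set (ι → Bool)} (hA : DepOn A S) (hB : DepOn B T) (hd : Disjoint S T)
    (mA : MeasurableSet A) (mB : MeasurableSet B) :
    (pm r).real (A ∩ B) = (pm r).real A * (pm r).real B := by
  unfold Measure.real
  rw [hI ι r S T A B hA hB hd mA mB, ENNReal.toReal_mul]

/-- The differential inequality. -/
lemma piv_lowerM (hI : S_indep) (hD : S_depmeas) (r : Ix n → unitInterval) (k : ℕ)
    (bF : Finset (V n)) (hbF : ∀ v, v ∈ bF ↔ v ∈ (CB k k : Set (V n)))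
    (E : Finset (Ix n)) (hE : ∀ e, e ∈ E ↔ e ∈ nnI (CB k k : Set (V n)))
    (c : ℕ) (hc1 : 1 ≤ c)
    (hc : ∀ (v : V n) (T : Finset (V n)), (∀ y ∈ T, NN y v) → T.card ≤ c)
    (α q : ℝ) (hα : 0 ≤ α) (hq : 0 ≤ q) (hq1 : q ≤ 1) (hrα : ∀ z : V n, α ≤ r (Sum.inl z))
    (hrq : ∀ z u : V n, NN z u → q ≤ 1 - r (Sum.inr s(z, u)))
    (hphi : ∀ S C : Finset (V n), (0 : V n) ∈ S → (∀ y ∈ S, y ∈ (CB k k : Set (V n)) ∧
      y ∉ Bd n k) → (∀ v, v ∈ C ↔ v ∈ (CB k k : Set (V n)) ∧ v ∉ S) →
      open scoped Classical in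
      1 ≤ ∑ z ∈ (S ×ˢ C).filter (fun z => NN z.1 z.2),
        (r (Sum.inr s(z.1, z.2)) : ℝ) * (pm r).real (QM (S : Set (V n)) 0 z.1)) :
    α * q ^ c * (1 - (pm r).real (armM n k)) ≤
      c * ∑ e ∈ E, (pm r).real (Piv (armM n k) e ∩ {ω | ω e = false}) := by
  classical
  set μ := pm r with hμ
  set R : Set (V n) := CB k k with hR
  set A : Set (V n) := Bd n k with hAdef
  have hAR : A ⊆ R := Bd_sub k
  set EC : Finset (V n) → Set (Cfg n) := fun C => {ω | cluM ω R A = (C : Set (V n))} with hEC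
  set Cs : Finset (Finset (V n)) :=
    bF.powerset.filter (fun C => (0 : V n) ∉ C ∧ A ⊆ (C : Set (V n))) with hCs
  have hin : ∀ ω, ∀ v ∈ cluM ω R A, v ∈ R := by
    rintro ω v ⟨a, ha, hr⟩
    exact reachM_mem hr (hAR ha)
  have harm : ∀ ω, ω ∈ armM n k ↔ (0 : V n) ∈ cluM ω R A := fun ω => Iff.rfl
  have hfin : (siI R ∪ nnI R).Finite :=
    (siI_finite (CB_finite k k)).union (nnI_finite (CB_finite k k))
  have mdep : ∀ (A : Set (Cfg n)), DepOn A (siI R ∪ nnI R) → MeasurableSet A := by
    intro A hA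
    refine hD _ hfin.toFinset A ?_
    rw [Set.Finite.coe_toFinset]; exact hA
  have mEC : ∀ C, MeasurableSet (EC C) := fun C =>
    mdep _ (dep_mono (dep_cluM R A (C : Set (V n))) (exM_sub _ _))
  have hdisj : ∀ C C' : Finset (V n), C ≠ C' → Disjoint (EC C) (EC C') := by
    intro C C' hne
    rw [Set.disjoint_left]
    intro ω h1 h2
    apply hne
    have h1' : cluM ω R A = (C : Set (V n)) := h1
    have h2' : cluM ω R A = (C' : Set (V n)) := h2
    exact Finset.coe_injective (h1'.symm.trans h2')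
  have hcompl : (armM n k)ᶜ = ⋃ C ∈ Cs, EC C := by
    ext ω
    rw [mem_compl_iff, harm]
    simp only [mem_iUnion, exists_prop]
    constructor
    · intro h
      refine ⟨bF.filter (fun v => v ∈ cluM ω R A), ?_, ?_⟩
      · rw [hCs, Finset.mem_filter, Finset.mem_powerset]
        refine ⟨Finset.filter_subset _ _, ?_, ?_⟩
        · rw [Finset.mem_filter]; exact fun h' => h h'.2
        · intro v hv
          rw [Finset.mem_coe, Finset.mem_filter, hbF]
          exact ⟨hAR hv, sub_cluM ω R A hv⟩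
      · show cluM ω R A = _
        ext v
        rw [Finset.mem_coe, Finset.mem_filter, hbF]
        exact ⟨fun h => ⟨hin ω v h, h⟩, fun h => h.2⟩
    · rintro ⟨C, hC, hE'⟩
      have hE'' : cluM ω R A = (C : Set (V n)) := hE'
      rw [hCs, Finset.mem_filter] at hC
      rw [hE'']
      exact hC.2.1
  have marm : MeasurableSet (armM n k) := mdep _ (armM_dep k)
  have hone : 1 - μ.real (armM n k) = ∑ C ∈ Cs, μ.real (EC C) := by
    have h1 := probReal_compl_eq_one_sub (μ := μ) marm
    rw [← h1, hcompl, measureReal_biUnion_finset]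
    · intro C _ C' _ hne
      exact hdisj C C' hne
    · intro C _; exact mEC C
  -- lower bound for a single C
  have hC : ∀ C ∈ Cs, α * q ^ c * μ.real (EC C) ≤ c * ∑ e ∈ E, μ.real ((Piv (armM n k) e ∩
      {ω | ω e = false}) ∩ EC C) := by
    intro C hC
    rw [hCs, Finset.mem_filter, Finset.mem_powerset] at hC
    obtain ⟨hC1, hC2, hC3⟩ := hC
    have hCR : (C : Set (V n)) ⊆ R := fun v hv => (hbF v).1 (hC1 (by simpa using hv))
    have hterm : ∀ e ∈ E, 0 ≤ μ.real ((Piv (armM n k) e ∩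
      {ω | ω e = false}) ∩ EC C) := fun _ _ => measureReal_nonneg
    have hgood : ∀ z : V n, z ∉ C → α * q ^ c * μ.real (EC C) ≤
        μ.real (good R A (C : Set (V n)) z) := fun z hz =>
      good_lower hI r (mEC C) hz α q hα hq hq1 c (hc z) (hrα z) (hrq z)
    -- a good site joined to the origin gives a pivotal bond
    have hpiv : ∀ z u : V n, z ∈ R → u ∈ C → NN z u → ∀ ω ∈ good R A (C : Set (V n)) z,
        (Hm ω R A).Reachable 0 z →
        ω ∈ (Piv (armM n k) (Sum.inr s(z, u)) ∩ {ω | ω (Sum.inr s(z, u)) = false}) ∩ EC C := by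
      intro z u hz hu hzu ω hω h0
      have hcl := hω.2.1 u (by simpa using hu) hzu
      refine ⟨⟨⟨good_piv hz hAR hω (by simpa using hu) hzu h0, ?_⟩, hcl⟩, hω.1⟩
      rw [upd_of hcl, harm, hω.1]
      exact fun h => hC2 (by simpa using h)
    have hmemE : ∀ z u : V n, z ∈ R → u ∈ C → NN z u → (Sum.inr s(z, u) : Ix n) ∈ E := by
      intro z u hz hu hzu
      rw [hE]
      exact ⟨z, u, hz, hCR (by simpa using hu), hzu, rfl⟩
    have hc1' : (1 : ℝ) ≤ c := by exact_mod_cast hc1
    have h4 : 0 ≤ ∑ e ∈ E, μ.real ((Piv (armM n k) e ∩ {ω | ω e = false}) ∩ EC C) :=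
      Finset.sum_nonneg hterm
    by_cases h0W : (0 : V n) ∈ wM R (C : Set (V n))
    · -- the origin is at the boundary
      obtain ⟨h0R, h | ⟨u, hu, hu0⟩⟩ := h0W
      · exact absurd (by simpa using h) hC2
      · have hu' : u ∈ C := by simpa using hu
        have h1 : good R A (C : Set (V n)) 0 ⊆ (Piv (armM n k) (Sum.inr s(0, u)) ∩
            {ω | ω (Sum.inr s(0, u)) = false}) ∩ EC C := fun ω hω =>
          hpiv 0 u h0R hu' (NN_symm hu0) ω hω (SimpleGraph.Reachable.refl _)
        have h2 := measureReal_mono h1 (measure_ne_top μ _)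
        have h3 := Finset.single_le_sum hterm (hmemE 0 u h0R hu' (NN_symm hu0))
        calc α * q ^ c * μ.real (EC C) ≤ 1 * ∑ e ∈ E, μ.real ((Piv (armM n k) e ∩
              {ω | ω e = false}) ∩ EC C) := by
              rw [one_mul]; exact (hgood 0 hC2).trans (h2.trans h3)
          _ ≤ _ := mul_le_mul_of_nonneg_right hc1' h4
    set S : Finset (V n) := bF.filter (fun v => v ∉ wM R (C : Set (V n))) with hS
    set D : Finset (V n) := bF.filter (fun v => v ∈ wM R (C : Set (V n))) with hDD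
    have h0S : (0 : V n) ∈ S := by
      rw [hS, Finset.mem_filter, hbF]
      exact ⟨zero_CB k, h0W⟩
    have hSmem : ∀ x ∈ S, x ∈ R ∧ x ∉ wM R (C : Set (V n)) := by
      intro x hx
      rw [hS, Finset.mem_filter, hbF] at hx
      exact hx
    have hSC : ∀ x ∈ S, x ∉ C := fun x hx h =>
      (hSmem x hx).2 ⟨(hSmem x hx).1, Or.inl (by simpa using h)⟩
    have hSmem2 : ∀ x ∈ S, x ∈ (CB k k : Set (V n)) ∧ x ∉ Bd n k := by
      intro x hx
      exact ⟨(hSmem x hx).1, fun h => hSC x hx (by simpa using hC3 h)⟩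
    have hDmem : ∀ v, v ∈ D ↔ v ∈ R ∧ v ∉ S := by
      intro v
      rw [hS, hDD, Finset.mem_filter, Finset.mem_filter, hbF]
      constructor
      · intro h
        exact ⟨h.1, fun h' => h'.2 h.2⟩
      · rintro ⟨h1, h2⟩
        refine ⟨h1, ?_⟩
        by_contra h3
        exact h2 ⟨h1, h3⟩
    set Z := (S ×ˢ D).filter (fun z : V n × V n => NN z.1 z.2) with hZ
    have hbd : ∀ z ∈ Z, z.1 ∈ S ∧ z.2 ∈ D ∧ NN z.1 z.2 := by
      intro z hz
      rw [hZ, Finset.mem_filter, Finset.mem_product] at hz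
      exact ⟨hz.1.1, hz.1.2, hz.2⟩
    -- the second site of a pair is not in the cluster, but has a neighbour there
    have hnb : ∀ x ∈ S, ∀ z ∈ D, NN x z → z ∉ C ∧ ∃ u ∈ C, NN z u := by
      intro x hx z hz hxz
      have hzC : z ∉ C := by
        intro h
        exact (hSmem x hx).2 ⟨(hSmem x hx).1, Or.inr ⟨z, by simpa using h, NN_symm hxz⟩⟩
      refine ⟨hzC, ?_⟩
      rw [hDD, Finset.mem_filter] at hz
      rcases hz.2.2 with h | ⟨u, hu, huz⟩
      · exact absurd (by simpa using h) hzC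
      · exact ⟨u, by simpa using hu, NN_symm huz⟩
    have hu : ∀ z : V n, ∃ u : V n, (z ∉ C ∧ ∃ u ∈ C, NN z u) → u ∈ C ∧ NN z u := by
      intro z
      by_cases h : z ∉ C ∧ ∃ u ∈ C, NN z u
      · obtain ⟨u, h1, h2⟩ := h.2
        exact ⟨u, fun _ => ⟨h1, h2⟩⟩
      · exact ⟨0, fun h' => absurd h' h⟩
    choose u hu using hu
    have hz : ∀ z ∈ Z, α * q ^ c * μ.real (EC C) *
        ((r (Sum.inr s(z.1, z.2)) : ℝ) * μ.real (QM (S : Set (V n)) 0 z.1)) ≤
        μ.real ((Piv (armM n k) (Sum.inr s(z.2, u z.2)) ∩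
          {ω | ω (Sum.inr s(z.2, u z.2)) = false}) ∩ EC C) := by
      intro z hz
      obtain ⟨g1, g2, g3⟩ := hbd z hz
      have g4 := hnb z.1 g1 z.2 g2 g3
      obtain ⟨g5, g6⟩ := hu z.2 g4
      have hzR : z.2 ∈ R := ((hDmem _).1 g2).1
      have hzW : z.2 ∈ wM R (C : Set (V n)) := by
        rw [hDD, Finset.mem_filter] at g2
        exact g2.2
      have hSB : (S : Set (V n)) ⊆ R := fun x hx => (hSmem x (by simpa using hx)).1
      have dQ : DepOn (QM (S : Set (V n)) 0 z.1) (siI (S : Set (V n)) ∪ nnI (S : Set (V n))) :=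
        dep_QM _ _ _ (by simpa using h0S)
      have mQ : MeasurableSet (QM (S : Set (V n)) 0 z.1) := by
        refine mdep _ (dep_mono dQ ?_)
        rintro c' (⟨x, hx, rfl⟩ | ⟨x, y, hx, hy, hxy, rfl⟩)
        · exact Or.inl ⟨x, hSB hx, rfl⟩
        · exact Or.inr ⟨x, y, hSB hx, hSB hy, hxy, rfl⟩
      set O : Set (Cfg n) := {ω | ω (Sum.inr s(z.1, z.2)) = true} with hO
      have dO : DepOn O {Sum.inr s(z.1, z.2)} := by
        intro ω ω' h
        simp only [hO, mem_setOf_eq, h _ rfl]
      have mO : MeasurableSet O := meas_coord _ _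
      have hO' : μ.real O = r (Sum.inr s(z.1, z.2)) := (Pool.Agent.W424.PC.pm_coord r _).1
      have dOQ : DepOn (O ∩ QM (S : Set (V n)) 0 z.1)
          ({Sum.inr s(z.1, z.2)} ∪ (siI (S : Set (V n)) ∪ nnI (S : Set (V n)))) :=
        dep_inter (dep_mono dO subset_union_left) (dep_mono dQ subset_union_right)
      have i1 : μ.real (O ∩ QM (S : Set (V n)) 0 z.1) =
          μ.real O * μ.real (QM (S : Set (V n)) 0 z.1) := by
        refine real_indep hI r dO dQ ?_ mO mQ
        rw [Set.disjoint_left]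
        rintro e he (⟨x, hx, h⟩ | ⟨x, y, hx, hy, hxy, h⟩)
        · rw [mem_singleton_iff] at he
          rw [he] at h
          simp at h
        · rw [mem_singleton_iff] at he
          rw [he] at h
          have h5 := Sum.inr_injective h
          rw [Sym2.eq_iff] at h5
          have h6 : z.2 ∉ S := ((hDmem _).1 g2).2
          rcases h5 with ⟨_, h7⟩ | ⟨_, h7⟩
          · exact h6 (by rw [h7]; simpa using hy)
          · exact h6 (by rw [h7]; simpa using hx)
      have dG : DepOn (good R A (C : Set (V n)) z.2) (exM R (C : Set (V n))) :=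
        dep_good R A _ _ hzW hCR
      have mG : MeasurableSet (good R A (C : Set (V n)) z.2) :=
        mdep _ (dep_mono dG (exM_sub _ _))
      have i2 : μ.real (good R A (C : Set (V n)) z.2 ∩ (O ∩ QM (S : Set (V n)) 0 z.1)) =
          μ.real (good R A (C : Set (V n)) z.2) * μ.real (O ∩ QM (S : Set (V n)) 0 z.1) := by
        refine real_indep hI r dG dOQ ?_ mG (mO.inter mQ)
        rw [Set.disjoint_left]
        rintro e (⟨x, hx, rfl⟩ | ⟨x, y, hx, hy, hxC, hxy, rfl⟩) (he | ⟨x', hx', h⟩ |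
          ⟨x', y', hx', hy', hxy', h⟩)
        · rw [mem_singleton_iff] at he
          simp at he
        · have h5 := Sum.inl_injective h
          exact (hSmem x' (by simpa using hx')).2 (h5 ▸ hx)
        · simp at h
        · rw [mem_singleton_iff] at he
          have h5 := Sum.inr_injective he
          rw [Sym2.eq_iff] at h5
          rcases h5 with ⟨h6, _⟩ | ⟨h6, _⟩
          · exact hSC _ g1 (by rw [← h6]; simpa using hxC)
          · exact g4.1 (by rw [← h6]; simpa using hxC)
        · simp at h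
        · have h5 := Sum.inr_injective h
          rw [Sym2.eq_iff] at h5
          rcases h5 with ⟨h6, _⟩ | ⟨h6, _⟩
          · exact hSC x' (by simpa using hx') (by rw [← h6]; simpa using hxC)
          · exact hSC y' (by simpa using hy') (by rw [← h6]; simpa using hxC)
      have h5 : α * q ^ c * μ.real (EC C) *
          ((r (Sum.inr s(z.1, z.2)) : ℝ) * μ.real (QM (S : Set (V n)) 0 z.1)) ≤
          μ.real (good R A (C : Set (V n)) z.2 ∩ (O ∩ QM (S : Set (V n)) 0 z.1)) := by
        rw [i2, i1, hO']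
        exact mul_le_mul_of_nonneg_right (hgood z.2 g4.1)
          (mul_nonneg (r _).2.1 measureReal_nonneg)
      refine h5.trans (measureReal_mono ?_ (measure_ne_top _ _))
      rintro ω ⟨hω, hωO, h0, hr⟩
      refine hpiv z.2 (u z.2) hzR g5 g6 ω hω ?_
      have hle := Hm_le (ω := ω) (ω' := ω) (fun _ h => h) hSB (empty_subset A)
      refine (hr.mono hle).trans (SimpleGraph.Adj.reachable ?_)
      refine ⟨(hSmem _ g1).1, hzR, g3, hωO, ?_, Or.inr hω.2.2⟩
      exact Or.inr ((reachM_open hr (Or.inr h0)).resolve_left (fun h => h.elim))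
    have hphiS := hphi S D h0S hSmem2 hDmem
    have hinj : Set.InjOn (fun z : V n => (Sum.inr s(z, u z) : Ix n))
        ((D.filter (fun z => z ∉ C ∧ ∃ u ∈ C, NN z u) : Finset (V n)) : Set (V n)) := by
      intro z hz z' hz' h
      rw [Finset.mem_coe, Finset.mem_filter] at hz hz'
      have h5 := Sum.inr_injective h
      rw [Sym2.eq_iff] at h5
      rcases h5 with ⟨h6, _⟩ | ⟨h6, _⟩
      · exact h6
      · exfalso
        exact hz.2.1 (by rw [h6]; exact (hu z' hz'.2).1)
    have himg : (D.filter (fun z => z ∉ C ∧ ∃ u ∈ C, NN z u)).image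
        (fun z : V n => (Sum.inr s(z, u z) : Ix n)) ⊆ E := by
      intro e he
      rw [Finset.mem_image] at he
      obtain ⟨z, hz, rfl⟩ := he
      rw [Finset.mem_filter] at hz
      obtain ⟨g5, g6⟩ := hu z hz.2
      exact hmemE z (u z) ((hDmem _).1 hz.1).1 g5 g6
    have hn0 : 0 ≤ α * q ^ c * μ.real (EC C) := by positivity
    calc α * q ^ c * μ.real (EC C) ≤ α * q ^ c * μ.real (EC C) *
          ∑ z ∈ Z, (r (Sum.inr s(z.1, z.2)) : ℝ) * μ.real (QM (S : Set (V n)) 0 z.1) := by
          have : 1 ≤ ∑ z ∈ Z, (r (Sum.inr s(z.1, z.2)) : ℝ) *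
            μ.real (QM (S : Set (V n)) 0 z.1) := by rw [hZ]; exact hphiS
          nlinarith
      _ = ∑ z ∈ Z, α * q ^ c * μ.real (EC C) *
          ((r (Sum.inr s(z.1, z.2)) : ℝ) * μ.real (QM (S : Set (V n)) 0 z.1)) := by
          rw [Finset.mul_sum]
      _ ≤ ∑ z ∈ Z, μ.real ((Piv (armM n k) (Sum.inr s(z.2, u z.2)) ∩
          {ω | ω (Sum.inr s(z.2, u z.2)) = false}) ∩ EC C) := Finset.sum_le_sum hz
      _ = ∑ v ∈ D, ∑ y ∈ S, if NN y v then μ.real ((Piv (armM n k) (Sum.inr s(v, u v)) ∩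
          {ω | ω (Sum.inr s(v, u v)) = false}) ∩ EC C) else 0 := by
          rw [hZ, Finset.sum_filter, Finset.sum_product_right]
      _ ≤ ∑ v ∈ D, if v ∉ C ∧ ∃ u ∈ C, NN v u then
          (c : ℝ) * μ.real ((Piv (armM n k) (Sum.inr s(v, u v)) ∩
          {ω | ω (Sum.inr s(v, u v)) = false}) ∩ EC C) else 0 := by
          refine Finset.sum_le_sum fun v hv => ?_
          rw [← Finset.sum_filter, Finset.sum_const, nsmul_eq_mul]
          split_ifs with hh
          · refine mul_le_mul_of_nonneg_right ?_ measureReal_nonneg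
            have := hc v (S.filter fun y => NN y v) fun y hy => (Finset.mem_filter.1 hy).2
            exact_mod_cast this
          · have : S.filter (fun y => NN y v) = ∅ := by
              rw [Finset.filter_eq_empty_iff]
              intro y hy hyv
              exact hh (hnb y hy v hv hyv)
            rw [this]; simp
      _ = c * ∑ v ∈ D.filter (fun z => z ∉ C ∧ ∃ u ∈ C, NN z u),
          μ.real ((Piv (armM n k) (Sum.inr s(v, u v)) ∩
          {ω | ω (Sum.inr s(v, u v)) = false}) ∩ EC C) := by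
          rw [← Finset.sum_filter, Finset.mul_sum]
      _ = c * ∑ e ∈ (D.filter (fun z => z ∉ C ∧ ∃ u ∈ C, NN z u)).image
          (fun z : V n => (Sum.inr s(z, u z) : Ix n)),
          μ.real ((Piv (armM n k) e ∩ {ω | ω e = false}) ∩ EC C) := by
          rw [Finset.sum_image hinj]
      _ ≤ _ := mul_le_mul_of_nonneg_left
          (Finset.sum_le_sum_of_subset_of_nonneg himg fun _ _ _ => measureReal_nonneg)
          (by linarith)
  rw [hone, Finset.mul_sum]
  calc ∑ C ∈ Cs, α * q ^ c * μ.real (EC C) ≤ ∑ C ∈ Cs, (c : ℝ) * ∑ e ∈ E,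
        μ.real ((Piv (armM n k) e ∩ {ω | ω e = false}) ∩ EC C) := Finset.sum_le_sum hC
    _ = c * ∑ e ∈ E, ∑ C ∈ Cs, μ.real ((Piv (armM n k) e ∩ {ω | ω e = false}) ∩ EC C) := by
        rw [← Finset.mul_sum, Finset.sum_comm]
    _ ≤ c * ∑ e ∈ E, μ.real (Piv (armM n k) e ∩ {ω | ω e = false}) := by
        refine mul_le_mul_of_nonneg_left ?_ (Nat.cast_nonneg c)
        refine Finset.sum_le_sum fun e he => ?_
        have hmeas : MeasurableSet (Piv (armM n k) e ∩ {ω | ω e = false}) :=
          (mdep _ (dep_Piv (armM_dep k) e)).inter (meas_coord e false)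
        rw [← measureReal_biUnion_finset]
        · refine measureReal_mono ?_ (measure_ne_top _ _)
          refine Set.iUnion₂_subset fun C _ => inter_subset_left
        · intro C _ C' _ hne
          exact Set.disjoint_of_subset inter_subset_right inter_subset_right (hdisj C C' hne)
        · intro C _; exact hmeas.inter (mEC C)

/-- The functional: sites of density `a`; `x` is required to be open. -/
noncomputable def phiM (a p : unitInterval) (β : NNReal) (s : ℝ) (m : ℕ) (S : Finset (V n))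
    (x : V n) : ℝ := Pool.Agent.W613.PC.Ph True a p β s m S x

/-- The functional in terms of boundary pairs. -/
lemma phiM_le_pairs (a p : unitInterval) (s : ℝ) (m k : ℕ) (S C : Finset (V n))
    (hS : ∀ y ∈ S, y ∈ (CB k k : Set (V n)) ∧ y ∉ Bd n k)
    (hC : ∀ v, v ∈ C ↔ v ∈ (CB k k : Set (V n)) ∧ v ∉ S) :
    open scoped Classical in
    phiM a p 0 s m S 0 ≤ ∑ z ∈ (S ×ˢ C).filter (fun z => NN z.1 z.2),
        (p : ℝ) * (pm (prob (n := n) a p 0 s m)).real (QM (S : Set (V n)) 0 z.1) := by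
  classical
  unfold phiM Pool.Agent.W613.PC.Ph
  rw [Finset.sum_filter, Finset.sum_product]
  refine Finset.sum_le_sum fun y hy => ?_
  have hcongr : (pm (prob (n := n) a p 0 s m)).real
      (Pool.Agent.W613.PC.AA True (EdI m) (S : Set (V n)) 0 y) =
      (pm (prob (n := n) a p 0 s m)).real (QM (S : Set (V n)) 0 y) := by
    refine measureReal_congr ?_
    filter_upwards [ae_OmM (n := n) a p s m] with ω hω
    apply propext
    show ((True → ω (Sum.inl 0) = true) ∧ (G (EdI m) ω (S : Set (V n))).Reachable 0 y) ↔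
      (ω (Sum.inl 0) = true ∧ (Hm ω (S : Set (V n)) ∅).Reachable 0 y)
    rw [G_eq_Hm hω]
    simp
  rw [hcongr]
  set b := (pm (prob (n := n) a p 0 s m)).real (QM (S : Set (V n)) 0 y)
  have htsum : (∑' z : V n, if z ∈ S then (0 : ℝ) else
      (prob (n := n) a p 0 s m (Sum.inr s(y, z)) : ℝ)) =
      ∑ z ∈ C, if NN y z then (p : ℝ) else 0 := by
    rw [tsum_eq_sum (s := C)]
    · refine Finset.sum_congr rfl fun z hz => ?_
      rw [if_neg ((hC z).1 hz).2, probM_eq]
      unfold rpM
      simp only [isNN_iff]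
    · intro z hz
      by_cases hzS : z ∈ S
      · rw [if_pos hzS]
      · rw [if_neg hzS, probM_eq]
        unfold rpM
        simp only [isNN_iff]
        rw [if_neg]
        intro hNN
        exact hz ((hC z).2 ⟨NN_CB hNN (hS y hy).1 (hS y hy).2, hzS⟩)
  rw [htsum, Finset.mul_sum]
  refine Finset.sum_le_sum fun z hz => ?_
  by_cases h : NN y z
  · rw [if_pos h, if_pos h, mul_comm]
  · rw [if_neg h, if_neg h, mul_zero]

lemma nb_boundN (n : ℕ) : ∃ c : ℕ, 1 ≤ c ∧
    ∀ (v : V n) (T : Finset (V n)), (∀ y ∈ T, NN y v) → T.card ≤ c := by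
  obtain ⟨c, hc1, hc⟩ := nb_bound n
  refine ⟨⌊c⌋₊, Nat.le_floor (by simpa using hc1), fun v T hT => Nat.le_floor (hc v T hT)⟩

/-- the arm probabilities are bounded from below -/
lemma armM_lower (hI : S_indep) (hD : S_depmeas) (hM : S_mono) (m : ℕ) (s : ℝ)
    (a p p' : unitInterval) (hpp : p < p') (hp'1 : (p' : ℝ) < 1) (c : ℕ) (hc1 : 1 ≤ c)
    (hc : ∀ (v : V n) (T : Finset (V n)), (∀ y ∈ T, NN y v) → T.card ≤ c)
    (hcon : ∀ S : Finset (V n), 0 ∈ S → 1 ≤ phiM a p 0 s m S 0) (k : ℕ) :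
    1 - Real.exp (-(((p' : ℝ) - p) * ((a : ℝ) * (1 - (p' : ℝ)) ^ c / c))) ≤
      (pm (prob (n := n) a p' 0 s m)).real (armM n k) := by
  classical
  set δ : ℝ := (a : ℝ) * (1 - (p' : ℝ)) ^ c / c with hδ
  have hc0 : (0 : ℝ) < c := by exact_mod_cast hc1
  have ha0 : (0 : ℝ) ≤ a := a.2.1
  have hq0 : (0 : ℝ) ≤ 1 - p' := by linarith
  have hδ0 : 0 ≤ δ := by positivity
  have hfinB : (nnI (CB k k : Set (V n))).Finite := nnI_finite (CB_finite k k)
  set bF := (CB_finite (n := n) k k).toFinset with hbFdef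
  have hbF : ∀ v, v ∈ bF ↔ v ∈ (CB k k : Set (V n)) := fun v => by
    rw [hbFdef, Set.Finite.mem_toFinset]
  set EB : Finset (Ix n) := hfinB.toFinset with hEBdef
  have hEB : ∀ e, e ∈ EB ↔ e ∈ nnI (CB k k : Set (V n)) := fun e => by
    rw [hEBdef, Set.Finite.mem_toFinset]
  have hfinS : (siI (CB k k : Set (V n))).Finite := siI_finite (CB_finite k k)
  set ES : Finset (Ix n) := hfinS.toFinset with hESdef
  set E : Finset (Ix n) := ES ∪ EB with hEdef
  have hE : (E : Set (Ix n)) = siI (CB k k : Set (V n)) ∪ nnI (CB k k : Set (V n)) := by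
    rw [hEdef, Finset.coe_union, hESdef, hEBdef, Set.Finite.coe_toFinset, Set.Finite.coe_toFinset]
  have hdep : DepOn (armM n k) (E : Set (Ix n)) := by
    rw [hE]; exact armM_dep k
  set F : ℝ → ℝ := fun t => EE E (rpM n a t) (I1 (armM n k)) with hF
  have hFq : ∀ q : unitInterval, F q = (pm (prob (n := n) a q 0 s m)).real (armM n k) := by
    intro q
    rw [pm_eq_EE hI hD _ hdep]
    have : rpM n a (q : ℝ) = fun c => (prob (n := n) a q 0 s m c : ℝ) := by
      funext c; exact (probM_eq a q s m c).symm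
    rw [hF]
    simp only [this]
  have hmono : ∀ q : unitInterval, p ≤ q → ∀ c, prob (n := n) a p 0 s m c ≤
      prob (n := n) a q 0 s m c := by
    intro q hq c
    rw [← Subtype.coe_le_coe, probM_eq, probM_eq]
    cases c with
    | inl x => exact le_refl _
    | inr e =>
      simp only [rpM]
      split_ifs
      · exact hq
      · exact le_refl _
  have hder : ∀ t : ℝ, (p : ℝ) ≤ t → t ≤ p' → ∃ D, HasDerivAt F D t ∧ δ * (1 - F t) ≤ D := by
    intro t h1 h2
    have ht0 : 0 ≤ t := le_trans p.2.1 h1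
    have ht1 : t ≤ 1 := le_trans h2 p'.2.2
    set q : unitInterval := ⟨t, ht0, ht1⟩ with hq
    have hpq : p ≤ q := h1
    set r := prob (n := n) a q 0 s m with hr
    set ρ' : Ix n → ℝ := fun c => match c with
      | Sum.inl _ => 0
      | Sum.inr e => if isNN e then 1 else 0 with hρ'
    have hd := russo_pm hI hD r hdep (armM_inc k) (fun t => rpM n a t) ρ' t (by
      intro c
      cases c with
      | inl x => simpa [rpM, hρ'] using hasDerivAt_const t (a : ℝ)
      | inr e =>
        by_cases he : isNN e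
        · simpa [rpM, hρ', he] using hasDerivAt_id' t
        · simpa [rpM, hρ', he] using hasDerivAt_const t (0 : ℝ)) (by
      intro c
      rw [hr, probM_eq])
    refine ⟨_, hd, ?_⟩
    have hrNN : ∀ z u : V n, NN z u → (r (Sum.inr s(z, u)) : ℝ) = t := by
      intro z u hzu
      rw [hr, probM_eq]; simp [rpM, isNN_iff, hzu, hq]
    have h3 := piv_lowerM hI hD r k bF hbF EB hEB c hc1 hc (a : ℝ) (1 - (p' : ℝ)) ha0 hq0
      (by linarith [p'.2.1]) (fun z => by rw [hr, probM_eq]; exact le_refl _)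
      (fun z u hzu => by rw [hrNN z u hzu]; linarith) (by
        intro S C h0 hS hC
        refine (hcon S h0).trans ((phiM_le_pairs a p s m k S C hS hC).trans ?_)
        refine Finset.sum_le_sum fun z hz => ?_
        have hzN : NN z.1 z.2 := (Finset.mem_filter.1 hz).2
        have hfin' : (siI (S : Set (V n)) ∪ nnI (S : Set (V n))).Finite :=
          (siI_finite S.finite_toSet).union (nnI_finite S.finite_toSet)
        have hmeas : MeasurableSet (QM (S : Set (V n)) 0 z.1) := by
          refine hD _ hfin'.toFinset _ ?_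
          rw [Set.Finite.coe_toFinset]; exact dep_QM _ _ _ (by simpa using h0)
        rw [hrNN z.1 z.2 hzN]
        refine mul_le_mul h1 ?_ measureReal_nonneg ht0
        exact ENNReal.toReal_mono (measure_ne_top _ _)
          (hM _ _ _ _ (hmono q hpq) (inc_QM _ _ _) hmeas))
    have h4 : F t = (pm r).real (armM n k) := hFq q
    rw [h4]
    have h5 : δ * (1 - (pm r).real (armM n k)) ≤
        ∑ e ∈ EB, (pm r).real (Piv (armM n k) e ∩ {ω | ω e = false}) := by
      rw [hδ, div_mul_eq_mul_div, div_le_iff₀ hc0, mul_comm _ (c : ℝ)]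
      exact h3
    refine h5.trans ?_
    have hsub : EB ⊆ E := Finset.subset_union_right
    have hρ0 : ∀ e, 0 ≤ ρ' e := by
      intro e
      cases e with
      | inl x => exact le_refl _
      | inr e => simp only [hρ']; split_ifs <;> norm_num
    refine le_trans ?_ (Finset.sum_le_sum_of_subset_of_nonneg hsub fun e _ _ =>
      mul_nonneg (hρ0 e) measureReal_nonneg)
    refine Finset.sum_le_sum fun e he => ?_
    obtain ⟨x, y, hx, hy, hxy, rfl⟩ := (hEB e).1 he
    have h6 : ρ' (Sum.inr s(x, y)) = 1 := by simp [hρ', isNN_iff, hxy]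
    rw [h6, one_mul]
    exact measureReal_mono inter_subset_left (measure_ne_top _ _)
  set g : ℝ → ℝ := fun t => (1 - F t) * Real.exp (δ * t) with hg
  have hgder : ∀ t : ℝ, (p : ℝ) ≤ t → t ≤ p' → ∃ D, HasDerivAt g D t ∧ D ≤ 0 := by
    intro t h1 h2
    obtain ⟨D, hD, hD2⟩ := hder t h1 h2
    have he : HasDerivAt (fun t : ℝ => Real.exp (δ * t)) (Real.exp (δ * t) * (δ * 1)) t :=
      ((hasDerivAt_id' t).const_mul δ).exp
    have h3 := ((hasDerivAt_const t (1 : ℝ)).sub hD).mul he
    refine ⟨_, h3, ?_⟩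
    simp only [Pi.sub_apply]
    have h4 := Real.exp_pos (δ * t)
    nlinarith
  have hpp' : (p : ℝ) < p' := hpp
  have hanti : AntitoneOn g (Set.Icc (p : ℝ) p') := by
    refine antitoneOn_of_deriv_nonpos (convex_Icc _ _) ?_ ?_ ?_
    · intro t ht
      obtain ⟨D, hD, _⟩ := hgder t ht.1 ht.2
      exact hD.continuousAt.continuousWithinAt
    · intro t ht
      rw [interior_Icc] at ht
      obtain ⟨D, hD, _⟩ := hgder t ht.1.le ht.2.le
      exact hD.differentiableAt.differentiableWithinAt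
    · intro t ht
      rw [interior_Icc] at ht
      obtain ⟨D, hD, hD2⟩ := hgder t ht.1.le ht.2.le
      rw [hD.deriv]; exact hD2
  have h1 := hanti (Set.left_mem_Icc.2 hpp'.le) (Set.right_mem_Icc.2 hpp'.le) hpp'.le
  have h3 : 0 ≤ F p := by rw [hFq p]; exact measureReal_nonneg
  rw [← hFq p']
  simp only [hg] at h1
  have h4 : (1 - F p) * Real.exp (δ * p) ≤ Real.exp (δ * p) := by
    have := Real.exp_pos (δ * (p : ℝ))
    nlinarith
  have h5 : (1 - F p') ≤ Real.exp (-(((p' : ℝ) - p) * δ)) := by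
    have h6 : Real.exp (-(((p' : ℝ) - p) * δ)) * Real.exp (δ * p') = Real.exp (δ * p) := by
      rw [← Real.exp_add]; congr 1; ring
    have h7 := Real.exp_pos (δ * (p' : ℝ))
    have h8 : (1 - F p') * Real.exp (δ * p') ≤
        Real.exp (-(((p' : ℝ) - p) * δ)) * Real.exp (δ * p') := by rw [h6]; linarith
    exact le_of_mul_le_mul_right h8 h7
  linarith

/-- a cluster of the boundary of a box which reaches the origin: the origin is connected to the
complement of a smaller box -/
lemma arm_out {ω : Cfg n} {k : ℕ} (h : ω ∈ armM n (k + 2)) :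
    ∃ y : V n, y ∉ (CB k k : Set (V n)) ∧ (Hm ω univ ∅).Reachable 0 y := by
  -- walk from the origin
  obtain ⟨b, hb, hr⟩ := h
  have hr' := hr.symm
  rw [SimpleGraph.reachable_iff_reflTransGen] at hr'
  have key : ∀ y, Relation.ReflTransGen (Hm ω (CB (k + 2) (k + 2)) (Bd n (k + 2))).Adj 0 y →
      (∃ y : V n, y ∉ (CB k k : Set (V n)) ∧ (Hm ω univ ∅).Reachable 0 y) ∨
        (y ∈ (CB k k : Set (V n)) ∧ (Hm ω univ ∅).Reachable 0 y) := by
    intro y hy
    induction hy with
    | refl => exact Or.inr ⟨zero_CB k, SimpleGraph.Reachable.refl _⟩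
    | @tail c d _ hcd ih =>
      rcases ih with ih | ⟨hc, hc2⟩
      · exact Or.inl ih
      · -- `c` is in the small box, hence `d` is not on the boundary of the large box
        have hnB : ∀ v : V n, v ∈ Bd n (k + 2) → ∀ w : V n, w ∈ (CB k k : Set (V n)) →
            (|v.1 - w.1| ≤ 1 ∧ ∀ i, |v.2 i - w.2 i| ≤ 1) → False := by
          rintro v ⟨_, hv⟩ w ⟨hw1, hw2⟩ ⟨h1, h2⟩
          rcases hv with hv | ⟨i, hv⟩
          · push_cast at hv
            rw [abs_le] at h1 hw1
            rcases abs_cases v.1 with ⟨h3, _⟩ | ⟨h3, _⟩ <;> omega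
          · push_cast at hv
            have h2 := h2 i
            have hw2 := hw2 i
            rw [abs_le] at h2 hw2
            rcases abs_cases (v.2 i) with ⟨h3, _⟩ | ⟨h3, _⟩ <;> omega
        have hcB : c ∉ Bd n (k + 2) := fun h => hnB c h c hc (by simp)
        have hdB : d ∉ Bd n (k + 2) := by
          intro h
          refine hnB d h c hc ?_
          have := NN_le (NN_symm hcd.2.2.1)
          exact this
        have hadj : (Hm ω univ ∅).Adj c d :=
          ⟨mem_univ _, mem_univ _, hcd.2.2.1, hcd.2.2.2.1,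
            Or.inr (hcd.2.2.2.2.1.resolve_left hcB), Or.inr (hcd.2.2.2.2.2.resolve_left hdB)⟩
        have hd2 := hc2.trans (SimpleGraph.Adj.reachable hadj)
        by_cases hd : d ∈ (CB k k : Set (V n))
        · exact Or.inr ⟨hd, hd2⟩
        · exact Or.inl ⟨d, hd, hd2⟩
  rcases key b hr' with h | ⟨h1, h2⟩
  · exact h
  · exfalso
    obtain ⟨_, hb1⟩ := hb
    obtain ⟨hc1, hc2⟩ := h1
    push_cast at hb1
    rcases hb1 with h | ⟨i, h⟩
    · rw [h] at hc1; omega
    · have := hc2 i
      rw [h] at this; omega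

lemma Perc_incM (E : Set (Sym2 (V n))) (x : V n) : Inc (Perc E x) := by
  intro ω ω' h hω
  refine Set.Infinite.mono ?_ hω
  intro y hy
  refine SimpleGraph.Reachable.mono ?_ hy
  rintro a b ⟨h1, h2, h3, h4, h5, h6, h7⟩
  exact ⟨h1, h2, h3, h4, h _ h5, h _ h6, h _ h7⟩

/-- Duminil-Copin and Tassion for mixed percolation -/
theorem s_dctM (hI : S_indep) (hD : S_depmeas) (hM : S_mono) (hR : S_reach_meas)
    (hP : S_perc_meas) (m : ℕ) (s : ℝ) (a p p' : unitInterval) (ha : 0 < a) (hpp : p < p')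
    (h0' : (pm (prob (n := n) a p' 0 s m)).real (Perc (EdI m) 0) = 0) :
    ∃ S : Finset (V n), 0 ∈ S ∧ phiM a p 0 s m S 0 < 1 := by
  classical
  by_contra hcon
  push Not at hcon
  obtain ⟨c, hc1, hc⟩ := nb_boundN n
  have hppr : (p : ℝ) < p' := hpp
  -- a smaller parameter
  have hp1 : ((p : ℝ) + p') / 2 ∈ Icc (0 : ℝ) 1 := ⟨by linarith [p.2.1, p'.2.1],
    by linarith [p.2.2, p'.2.2]⟩
  set p1 : unitInterval := ⟨_, hp1⟩ with hp1def
  have hp1v : (p1 : ℝ) = ((p : ℝ) + p') / 2 := rfl
  have hpp1 : p < p1 := by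
    show (p : ℝ) < ((p : ℝ) + p') / 2
    linarith
  have hp1lt : (p1 : ℝ) < 1 := by rw [hp1v]; linarith [p'.2.2]
  have hp1le : ∀ c, prob (n := n) a p1 0 s m c ≤ prob (n := n) a p' 0 s m c := by
    intro c
    rw [← Subtype.coe_le_coe, probM_eq, probM_eq]
    cases c with
    | inl x => exact le_refl _
    | inr e =>
      simp only [rpM]
      split_ifs
      · rw [hp1v]; linarith
      · exact le_refl _
  have h0 : (pm (prob (n := n) a p1 0 s m)).real (Perc (EdI m) 0) = 0 := by
    have h1 : (pm (prob (n := n) a p1 0 s m)).real (Perc (EdI m) 0) ≤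
        (pm (prob (n := n) a p' 0 s m)).real (Perc (EdI m) 0) :=
      ENNReal.toReal_mono (measure_ne_top _ _) (hM _ _ _ _ hp1le (Perc_incM _ _) (hP _ _ _))
    exact le_antisymm (h1.trans h0'.le) measureReal_nonneg
  set μ := pm (prob (n := n) a p1 0 s m) with hμ
  set B : ℕ → Set (Cfg n) := fun k =>
    {ω | ∃ y : V n, y ∉ (CB k k : Set (V n)) ∧ (G (EdI m) ω univ).Reachable 0 y} with hB
  have hBm : ∀ k, MeasurableSet (B k) := by
    intro k
    have : B k = ⋃ y : V n, ⋃ (_ : y ∉ (CB k k : Set (V n))),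
        {ω | (G (EdI m) ω univ).Reachable 0 y} := by
      ext ω; simp [hB]
    rw [this]
    exact MeasurableSet.iUnion fun y => MeasurableSet.iUnion fun _ => hR n _ _ _ _
  have hBanti : Antitone B := by
    intro k l hkl ω hω
    obtain ⟨y, hy, hr⟩ := hω
    refine ⟨y, fun h => hy ?_, hr⟩
    have hkl' : (k : ℤ) ≤ l := by exact_mod_cast hkl
    exact ⟨h.1.trans hkl', fun i => (h.2 i).trans hkl'⟩
  have hsubP : (⋂ k, B k) ⊆ Perc (EdI m) (0 : V n) := by
    intro ω hω
    rw [mem_iInter] at hω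
    show (cl (EdI m) ω univ 0).Infinite
    intro hfin
    obtain ⟨M, hM⟩ : ∃ M : ℕ, ∀ v ∈ hfin.toFinset, v ∈ (CB M M : Set (V n)) := by
      refine ⟨∑ v ∈ hfin.toFinset, (v.1.natAbs + ∑ i, (v.2 i).natAbs), fun v hv => ?_⟩
      have h1 := Finset.single_le_sum (f := fun v : V n => (v.1.natAbs + ∑ i, (v.2 i).natAbs))
          (fun _ _ => Nat.zero_le _) hv
      constructor
      · have h2 : v.1.natAbs ≤ ∑ v ∈ hfin.toFinset, (v.1.natAbs + ∑ i, (v.2 i).natAbs) :=
          (Nat.le_add_right _ _).trans h1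
        rw [Int.abs_eq_natAbs]
        exact_mod_cast h2
      · intro i
        have h3 : (v.2 i).natAbs ≤ ∑ i, (v.2 i).natAbs :=
          Finset.single_le_sum (f := fun i => (v.2 i).natAbs) (fun _ _ => Nat.zero_le _)
            (Finset.mem_univ i)
        have h2 : (v.2 i).natAbs ≤ ∑ v ∈ hfin.toFinset, (v.1.natAbs + ∑ i, (v.2 i).natAbs) :=
          (h3.trans (Nat.le_add_left _ _)).trans h1
        rw [Int.abs_eq_natAbs]
        exact_mod_cast h2
    obtain ⟨y, hy, hr⟩ := hω M
    exact hy (hM y (by rw [Set.Finite.mem_toFinset]; exact hr))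
  set δ : ℝ := ((p1 : ℝ) - p) * ((a : ℝ) * (1 - (p1 : ℝ)) ^ c / c) with hδ
  have hlow : ∀ k, 1 - Real.exp (-δ) ≤ μ.real (B k) := by
    intro k
    have h1 := armM_lower hI hD hM m s a p p1 hpp1 hp1lt c hc1 hc hcon (k + 2)
    refine h1.trans ?_
    have h2 : μ (armM n (k + 2)) ≤ μ (B k) := by
      refine measure_mono_ae ?_
      filter_upwards [ae_OmM (n := n) a p1 s m] with ω hω
      intro harm
      obtain ⟨y, hy, hr⟩ := arm_out harm
      exact ⟨y, hy, by rw [G_eq_Hm hω]; exact hr⟩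
    exact ENNReal.toReal_mono (measure_ne_top _ _) h2
  have hlim := tendsto_measure_iInter_atTop (μ := μ) (s := B)
    (fun k => (hBm k).nullMeasurableSet) hBanti ⟨0, measure_ne_top _ _⟩
  have hPc : 1 - Real.exp (-δ) ≤ μ.real (⋂ k, B k) := by
    have h1 : Filter.Tendsto (fun k => μ.real (B k)) Filter.atTop
        (nhds (μ.real (⋂ k, B k))) := by
      unfold Measure.real
      exact (ENNReal.tendsto_toReal (measure_ne_top _ _)).comp hlim
    exact ge_of_tendsto' h1 hlow
  have hP2 : μ.real (⋂ k, B k) ≤ μ.real (Perc (EdI m) (0 : V n)) :=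
    measureReal_mono hsubP (measure_ne_top _ _)
  have hδ0 : 0 < δ := by
    have h1 : (0 : ℝ) < a := ha
    have h2 : (0 : ℝ) < c := by exact_mod_cast hc1
    have h3 : 0 < (p1 : ℝ) - p := by rw [hp1v]; linarith
    have h4 : 0 < 1 - (p1 : ℝ) := by linarith
    rw [hδ]
    positivity
  have hexp : Real.exp (-δ) < 1 := by
    rw [Real.exp_lt_one_iff]
    linarith
  rw [h0] at hP2
  linarith

end TH526.PM
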