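import Pool.Agent.TH526.PM.DctM

/-!
# The argument of Duminil-Copin and Tassion for mixed percolation, bonds of fixed probability

The probability of the bonds is fixed and the density of the sites varies.
-/

set_option autoImplicit false
set_option linter.all false
set_option linter.deprecated false

open MeasureTheory Set

namespace TH526.PM

open Pool.Agent.W783.PC Pool.Agent.W424.PC Pool.Agent.W462.PC

variable {n : ℕ}

/-- closing a site outside the cluster does not change the cluster -/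
lemma cluM_closeSite {ω : Cfg n} {R A C : Set (V n)} (hC : cluM ω R A = C) {z : V n}
    (hz : z ∉ C) : cluM (upd (Sum.inl z) false ω) R A = C := by
  have hle : ∀ c, upd (Sum.inl z) false ω c = true → ω c = true := by
    intro c hc
    by_cases h : c = Sum.inl z
    · rw [h, upd_self] at hc; exact absurd hc (by simp)
    · rwa [upd_ne h] at hc
  refine cluM_eq_of hC (fun c _ d h => Hm_le hle subset_rfl subset_rfl h) ?_
  rintro c hc d hd ⟨h1, h2, h3, h4, h5, h6⟩
  have hcz : c ≠ z := fun h => hz (h ▸ hc)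
  have hdz : d ≠ z := fun h => hz (h ▸ hd)
  refine ⟨h1, h2, h3, ?_, ?_, ?_⟩
  · rw [upd_ne (by simp)]; exact h4
  · rw [upd_ne (fun h => hcz (Sum.inl_injective h))]; exact h5
  · rw [upd_ne (fun h => hdz (Sum.inl_injective h))]; exact h6

/-- opening a bond to a closed site does not change the cluster -/
lemma cluM_openBond {ω : Cfg n} {R A C : Set (V n)} (hC : cluM ω R A = C) {z u : V n}
    (hz : z ∉ C) (hcl : ω (Sum.inl z) = false) :
    cluM (upd (Sum.inr s(z, u)) true ω) R A = C := by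
  have hAC : A ⊆ C := by rw [← hC]; exact sub_cluM ω R A
  refine cluM_eq_of hC ?_ ?_
  · rintro c hc d ⟨h1, h2, h3, h4, h5, h6⟩
    rw [upd_ne (by simp)] at h5 h6
    have hcz : c ≠ z := fun h => hz (h ▸ hc)
    have hdz : d ≠ z := by
      rintro rfl
      rcases h6 with h6 | h6
      · exact hz (hAC h6)
      · rw [hcl] at h6; exact absurd h6 (by simp)
    have hne : (Sum.inr s(c, d) : Ix n) ≠ Sum.inr s(z, u) := by
      intro h
      have h7 := Sum.inr_injective h
      rw [Sym2.eq_iff] at h7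
      rcases h7 with ⟨h7, _⟩ | ⟨_, h7⟩
      · exact hcz h7
      · exact hdz h7
    rw [upd_ne hne] at h4
    exact ⟨h1, h2, h3, h4, h5, h6⟩
  · intro c _ d _ h
    exact Hm_le (upd_true_le (Sum.inr s(z, u)) ω) subset_rfl subset_rfl h

/-- The event that `C` is the cluster, the site `z` is closed and its bond to `u` is open. -/
def goodN (R A C : Set (V n)) (z u : V n) : Set (Cfg n) :=
  {ω | cluM ω R A = C ∧ ω (Sum.inl z) = false ∧ ω (Sum.inr s(z, u)) = true}

lemma goodN_lower (hI : S_indep) (r : Ix n → unitInterval) {R A : Set (V n)} {C : Finset (V n)}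
    (hm : MeasurableSet {ω : Cfg n | cluM ω R A = (C : Set (V n))}) {z u : V n} (hz : z ∉ C)
    (α q : ℝ) (hα : 0 ≤ α) (hq : 0 ≤ q)
    (hrα : α ≤ 1 - r (Sum.inl z)) (hrq : q ≤ r (Sum.inr s(z, u))) :
    α * q * (pm r).real {ω : Cfg n | cluM ω R A = (C : Set (V n))} ≤
      (pm r).real (goodN R A (C : Set (V n)) z u) := by
  classical
  have h1 := modify hI r hm (Sum.inl z) false (by
    intro ω hω
    exact cluM_closeSite hω (by simpa using hz))
  have hm2 : MeasurableSet ({ω : Cfg n | cluM ω R A = (C : Set (V n))} ∩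
      {ω : Cfg n | ω (Sum.inl z) = false}) := hm.inter (meas_coord _ _)
  have h2 := modify hI r hm2 (Sum.inr s(z, u)) true (by
    rintro ω ⟨hω1, hω2⟩
    refine ⟨cluM_openBond hω1 (by simpa using hz) hω2, ?_⟩
    show upd (Sum.inr s(z, u)) true ω (Sum.inl z) = false
    rw [upd_ne (by simp)]; exact hω2)
  simp only [Bool.false_eq_true, if_false] at h1
  simp only [if_true] at h2
  have h0 : 0 ≤ (pm r).real {ω : Cfg n | cluM ω R A = (C : Set (V n))} := measureReal_nonneg
  calc α * q * (pm r).real {ω : Cfg n | cluM ω R A = (C : Set (V n))}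
      = q * (α * (pm r).real {ω : Cfg n | cluM ω R A = (C : Set (V n))}) := by ring
    _ ≤ (r (Sum.inr s(z, u)) : ℝ) * (pm r).real ({ω : Cfg n | cluM ω R A = (C : Set (V n))} ∩
          {ω : Cfg n | ω (Sum.inl z) = false}) :=
        mul_le_mul hrq ((mul_le_mul_of_nonneg_right hrα h0).trans h1) (by positivity)
          (hq.trans hrq)
    _ ≤ _ := h2
    _ ≤ _ := by
        refine measureReal_mono ?_ (measure_ne_top _ _)
        rintro ω ⟨⟨h4, h5⟩, h6⟩
        exact ⟨h4, h5, h6⟩

lemma dep_goodN (R A C : Set (V n)) (z u : V n) (hz : z ∈ wM R C) (hCR : C ⊆ R) (hu : u ∈ C)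
    (hzu : NN z u) : DepOn (goodN R A C z u) (exM R C) := by
  intro ω ω' h
  have h1 := dep_cluM R A C ω ω' h
  refine and_congr h1 (and_congr ?_ ?_)
  · have : ω (Sum.inl z) = ω' (Sum.inl z) := h _ (Or.inl ⟨z, hz, rfl⟩)
    rw [this]
  · have : ω (Sum.inr s(z, u)) = ω' (Sum.inr s(z, u)) :=
      h _ (Or.inr ⟨u, z, hCR hu, hz.1, hu, NN_symm hzu, by rw [Sym2.eq_swap]⟩)
    rw [this]

/-- after opening `z` it belongs to the cluster -/
lemma goodN_piv {ω : Cfg n} {R A C : Set (V n)} {z u : V n} (hz : z ∈ R) (hA : A ⊆ R)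
    (hω : ω ∈ goodN R A C z u) (hu : u ∈ C) (hzu : NN z u) :
    z ∈ cluM (upd (Sum.inl z) true ω) R A := by
  obtain ⟨h1, h2, h3⟩ := hω
  have hle := upd_true_le (Sum.inl z) ω
  have hu1 : u ∈ cluM ω R A := by rw [h1]; exact hu
  have huR : u ∈ R := by
    obtain ⟨a, ha, hr⟩ := hu1
    exact reachM_mem hr (hA ha)
  have hu2 := cluM_le hle hu1
  have hu3 := cluM_open hu2
  have hadj : (Hm (upd (Sum.inl z) true ω) R A).Adj u z :=
    ⟨huR, hz, NN_symm hzu, by rw [Sym2.eq_swap, upd_ne (by simp)]; exact h3, hu3,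
      Or.inr (upd_self _ _ _)⟩
  exact cluM_adj hu2 hadj

/-- The differential inequality. -/
lemma piv_lowerN (hI : S_indep) (hD : S_depmeas) (r : Ix n → unitInterval) (k : ℕ)
    (bF : Finset (V n)) (hbF : ∀ v, v ∈ bF ↔ v ∈ (CB k k : Set (V n)))
    (c : ℕ) (hc1 : 1 ≤ c)
    (hc : ∀ (v : V n) (T : Finset (V n)), (∀ y ∈ T, NN y v) → T.card ≤ c)
    (α q : ℝ) (hα : 0 ≤ α) (hq : 0 ≤ q) (hrα : ∀ z : V n, α ≤ 1 - r (Sum.inl z))
    (hrq : ∀ z u : V n, NN z u → q ≤ r (Sum.inr s(z, u)))
    (hphi : ∀ S C : Finset (V n), (0 : V n) ∈ S → (∀ y ∈ S, y ∈ (CB k k : Set (V n)) ∧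
      y ∉ Bd n k) → (∀ v, v ∈ C ↔ v ∈ (CB k k : Set (V n)) ∧ v ∉ S) →
      open scoped Classical in
      1 ≤ ∑ z ∈ (S ×ˢ C).filter (fun z => NN z.1 z.2),
        (r (Sum.inr s(z.1, z.2)) : ℝ) * (pm r).real (QM (S : Set (V n)) 0 z.1)) :
    α * q * (1 - (pm r).real (armM n k)) ≤
      c * ∑ v ∈ bF, (pm r).real (Piv (armM n k) (Sum.inl v) ∩ {ω | ω (Sum.inl v) = false}) := by
  classical
  set μ := pm r with hμ
  set R : Set (V n) := CB k k with hR
  set A : Set (V n) := Bd n k with hAdef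
  have hAR : A ⊆ R := Bd_sub k
  set EC : Finset (V n) → Set (Cfg n) := fun C => {ω | cluM ω R A = (C : Set (V n))} with hEC
  set Cs : Finset (Finset (V n)) :=
    bF.powerset.filter (fun C => (0 : V n) ∉ C ∧ A ⊆ (C : Set (V n))) with hCs
  have hin : ∀ ω, ∀ v ∈ cluM ω R A, v ∈ R := by
    rintro ω v ⟨a, ha, hr⟩
    exact reachM_mem hr (hAR ha)
  have harm : ∀ ω, ω ∈ armM n k ↔ (0 : V n) ∈ cluM ω R A := fun ω => Iff.rfl
  have hfin : (siI R ∪ nnI R).Finite :=
    (siI_finite (CB_finite k k)).union (nnI_finite (CB_finite k k))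
  have mdep : ∀ (A : Set (Cfg n)), DepOn A (siI R ∪ nnI R) → MeasurableSet A := by
    intro A hA
    refine hD _ hfin.toFinset A ?_
    rw [Set.Finite.coe_toFinset]; exact hA
  have mEC : ∀ C, MeasurableSet (EC C) := fun C =>
    mdep _ (dep_mono (dep_cluM R A (C : Set (V n))) (exM_sub _ _))
  have hdisj : ∀ C C' : Finset (V n), C ≠ C' → Disjoint (EC C) (EC C') := by
    intro C C' hne
    rw [Set.disjoint_left]
    intro ω h1 h2
    apply hne
    have h1' : cluM ω R A = (C : Set (V n)) := h1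
    have h2' : cluM ω R A = (C' : Set (V n)) := h2
    exact Finset.coe_injective (h1'.symm.trans h2')
  have hcompl : (armM n k)ᶜ = ⋃ C ∈ Cs, EC C := by
    ext ω
    rw [mem_compl_iff, harm]
    simp only [mem_iUnion, exists_prop]
    constructor
    · intro h
      refine ⟨bF.filter (fun v => v ∈ cluM ω R A), ?_, ?_⟩
      · rw [hCs, Finset.mem_filter, Finset.mem_powerset]
        refine ⟨Finset.filter_subset _ _, ?_, ?_⟩
        · rw [Finset.mem_filter]; exact fun h' => h h'.2
        · intro v hv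
          rw [Finset.mem_coe, Finset.mem_filter, hbF]
          exact ⟨hAR hv, sub_cluM ω R A hv⟩
      · show cluM ω R A = _
        ext v
        rw [Finset.mem_coe, Finset.mem_filter, hbF]
        exact ⟨fun h => ⟨hin ω v h, h⟩, fun h => h.2⟩
    · rintro ⟨C, hC, hE'⟩
      have hE'' : cluM ω R A = (C : Set (V n)) := hE'
      rw [hCs, Finset.mem_filter] at hC
      rw [hE'']
      exact hC.2.1
  have marm : MeasurableSet (armM n k) := mdep _ (armM_dep k)
  have hone : 1 - μ.real (armM n k) = ∑ C ∈ Cs, μ.real (EC C) := by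
    have h1 := probReal_compl_eq_one_sub (μ := μ) marm
    rw [← h1, hcompl, measureReal_biUnion_finset]
    · intro C _ C' _ hne
      exact hdisj C C' hne
    · intro C _; exact mEC C
  -- lower bound for a single C
  have hC : ∀ C ∈ Cs, α * q * μ.real (EC C) ≤ c * ∑ v ∈ bF,
      μ.real ((Piv (armM n k) (Sum.inl v) ∩ {ω | ω (Sum.inl v) = false}) ∩ EC C) := by
    intro C hC
    rw [hCs, Finset.mem_filter, Finset.mem_powerset] at hC
    obtain ⟨hC1, hC2, hC3⟩ := hC
    have hCR : (C : Set (V n)) ⊆ R := fun v hv => (hbF v).1 (hC1 (by simpa using hv))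
    have hterm : ∀ v ∈ bF, 0 ≤ μ.real ((Piv (armM n k) (Sum.inl v) ∩
      {ω | ω (Sum.inl v) = false}) ∩ EC C) := fun _ _ => measureReal_nonneg
    have hgood : ∀ z u : V n, z ∉ C → NN z u → α * q * μ.real (EC C) ≤
        μ.real (goodN R A (C : Set (V n)) z u) := fun z u hz hzu =>
      goodN_lower hI r (mEC C) hz α q hα hq (hrα z) (hrq z u hzu)
    -- a good site joined to the origin is pivotal
    have hpiv : ∀ z u : V n, z ∈ R → u ∈ C → NN z u → ∀ ω ∈ goodN R A (C : Set (V n)) z u,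
        (Hm (upd (Sum.inl z) true ω) R A).Reachable 0 z →
        ω ∈ (Piv (armM n k) (Sum.inl z) ∩ {ω | ω (Sum.inl z) = false}) ∩ EC C := by
      intro z u hz hu hzu ω hω h0
      have hcl := hω.2.1
      refine ⟨⟨⟨?_, ?_⟩, hcl⟩, hω.1⟩
      · obtain ⟨a, ha, hr⟩ := goodN_piv hz hAR hω (by simpa using hu) hzu
        exact ⟨a, ha, hr.trans h0.symm⟩
      · rw [upd_of hcl, harm, hω.1]
        exact fun h => hC2 (by simpa using h)
    have hc1' : (1 : ℝ) ≤ c := by exact_mod_cast hc1
    have h4 : 0 ≤ ∑ v ∈ bF, μ.real ((Piv (armM n k) (Sum.inl v) ∩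
      {ω | ω (Sum.inl v) = false}) ∩ EC C) := Finset.sum_nonneg hterm
    by_cases h0W : (0 : V n) ∈ wM R (C : Set (V n))
    · -- the origin is at the boundary
      obtain ⟨h0R, h | ⟨u, hu, hu0⟩⟩ := h0W
      · exact absurd (by simpa using h) hC2
      · have hu' : u ∈ C := by simpa using hu
        have h1 : goodN R A (C : Set (V n)) 0 u ⊆ (Piv (armM n k) (Sum.inl (0 : V n)) ∩
            {ω | ω (Sum.inl (0 : V n)) = false}) ∩ EC C := fun ω hω =>
          hpiv 0 u h0R hu' (NN_symm hu0) ω hω (SimpleGraph.Reachable.refl _)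
        have h2 := measureReal_mono h1 (measure_ne_top μ _)
        have h3 := Finset.single_le_sum hterm ((hbF 0).2 h0R)
        calc α * q * μ.real (EC C) ≤ 1 * ∑ v ∈ bF, μ.real ((Piv (armM n k) (Sum.inl v) ∩
              {ω | ω (Sum.inl v) = false}) ∩ EC C) := by
              rw [one_mul]; exact (hgood 0 u hC2 (NN_symm hu0)).trans (h2.trans h3)
          _ ≤ _ := mul_le_mul_of_nonneg_right hc1' h4
    set S : Finset (V n) := bF.filter (fun v => v ∉ wM R (C : Set (V n))) with hS
    set D : Finset (V n) := bF.filter (fun v => v ∈ wM R (C : Set (V n))) with hDD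
    have h0S : (0 : V n) ∈ S := by
      rw [hS, Finset.mem_filter, hbF]
      exact ⟨zero_CB k, h0W⟩
    have hSmem : ∀ x ∈ S, x ∈ R ∧ x ∉ wM R (C : Set (V n)) := by
      intro x hx
      rw [hS, Finset.mem_filter, hbF] at hx
      exact hx
    have hSC : ∀ x ∈ S, x ∉ C := fun x hx h =>
      (hSmem x hx).2 ⟨(hSmem x hx).1, Or.inl (by simpa using h)⟩
    have hSmem2 : ∀ x ∈ S, x ∈ (CB k k : Set (V n)) ∧ x ∉ Bd n k := by
      intro x hx
      exact ⟨(hSmem x hx).1, fun h => hSC x hx (by simpa using hC3 h)⟩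
    have hDmem : ∀ v, v ∈ D ↔ v ∈ R ∧ v ∉ S := by
      intro v
      rw [hS, hDD, Finset.mem_filter, Finset.mem_filter, hbF]
      constructor
      · intro h
        exact ⟨h.1, fun h' => h'.2 h.2⟩
      · rintro ⟨h1, h2⟩
        refine ⟨h1, ?_⟩
        by_contra h3
        exact h2 ⟨h1, h3⟩
    set Z := (S ×ˢ D).filter (fun z : V n × V n => NN z.1 z.2) with hZ
    have hbd : ∀ z ∈ Z, z.1 ∈ S ∧ z.2 ∈ D ∧ NN z.1 z.2 := by
      intro z hz
      rw [hZ, Finset.mem_filter, Finset.mem_product] at hz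
      exact ⟨hz.1.1, hz.1.2, hz.2⟩
    have hz : ∀ z ∈ Z, α * q * μ.real (EC C) *
        ((r (Sum.inr s(z.1, z.2)) : ℝ) * μ.real (QM (S : Set (V n)) 0 z.1)) ≤
        μ.real ((Piv (armM n k) (Sum.inl z.2) ∩ {ω | ω (Sum.inl z.2) = false}) ∩ EC C) := by
      intro z hz
      obtain ⟨g1, g2, g3⟩ := hbd z hz
      have hzC : z.2 ∉ C := by
        intro h
        exact (hSmem z.1 g1).2 ⟨(hSmem z.1 g1).1, Or.inr ⟨z.2, by simpa using h, NN_symm g3⟩⟩
      have hzR : z.2 ∈ R := ((hDmem _).1 g2).1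
      have hzW : z.2 ∈ wM R (C : Set (V n)) := by
        rw [hDD, Finset.mem_filter] at g2
        exact g2.2
      obtain ⟨u, g5, g6⟩ : ∃ u ∈ C, NN z.2 u := by
        rcases hzW.2 with h | ⟨u, hu, huz⟩
        · exact absurd (by simpa using h) hzC
        · exact ⟨u, by simpa using hu, NN_symm huz⟩
      have hSB : (S : Set (V n)) ⊆ R := fun x hx => (hSmem x (by simpa using hx)).1
      have dQ : DepOn (QM (S : Set (V n)) 0 z.1) (siI (S : Set (V n)) ∪ nnI (S : Set (V n))) :=
        dep_QM _ _ _ (by simpa using h0S)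
      have mQ : MeasurableSet (QM (S : Set (V n)) 0 z.1) := by
        refine mdep _ (dep_mono dQ ?_)
        rintro c' (⟨x, hx, rfl⟩ | ⟨x, y, hx, hy, hxy, rfl⟩)
        · exact Or.inl ⟨x, hSB hx, rfl⟩
        · exact Or.inr ⟨x, y, hSB hx, hSB hy, hxy, rfl⟩
      set O : Set (Cfg n) := {ω | ω (Sum.inr s(z.1, z.2)) = true} with hO
      have dO : DepOn O {Sum.inr s(z.1, z.2)} := by
        intro ω ω' h
        simp only [hO, mem_setOf_eq, h _ rfl]
      have mO : MeasurableSet O := meas_coord _ _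
      have hO' : μ.real O = r (Sum.inr s(z.1, z.2)) := (Pool.Agent.W424.PC.pm_coord r _).1
      have dOQ : DepOn (O ∩ QM (S : Set (V n)) 0 z.1)
          ({Sum.inr s(z.1, z.2)} ∪ (siI (S : Set (V n)) ∪ nnI (S : Set (V n)))) :=
        dep_inter (dep_mono dO subset_union_left) (dep_mono dQ subset_union_right)
      have i1 : μ.real (O ∩ QM (S : Set (V n)) 0 z.1) =
          μ.real O * μ.real (QM (S : Set (V n)) 0 z.1) := by
        refine real_indep hI r dO dQ ?_ mO mQ
        rw [Set.disjoint_left]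
        rintro e he (⟨x, hx, h⟩ | ⟨x, y, hx, hy, hxy, h⟩)
        · rw [mem_singleton_iff] at he
          rw [he] at h
          simp at h
        · rw [mem_singleton_iff] at he
          rw [he] at h
          have h5 := Sum.inr_injective h
          rw [Sym2.eq_iff] at h5
          have h6 : z.2 ∉ S := ((hDmem _).1 g2).2
          rcases h5 with ⟨_, h7⟩ | ⟨_, h7⟩
          · exact h6 (by rw [h7]; simpa using hy)
          · exact h6 (by rw [h7]; simpa using hx)
      have dG : DepOn (goodN R A (C : Set (V n)) z.2 u) (exM R (C : Set (V n))) :=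
        dep_goodN R A _ _ _ hzW hCR (by simpa using g5) g6
      have mG : MeasurableSet (goodN R A (C : Set (V n)) z.2 u) :=
        mdep _ (dep_mono dG (exM_sub _ _))
      have i2 : μ.real (goodN R A (C : Set (V n)) z.2 u ∩ (O ∩ QM (S : Set (V n)) 0 z.1)) =
          μ.real (goodN R A (C : Set (V n)) z.2 u) * μ.real (O ∩ QM (S : Set (V n)) 0 z.1) := by
        refine real_indep hI r dG dOQ ?_ mG (mO.inter mQ)
        rw [Set.disjoint_left]
        rintro e (⟨x, hx, rfl⟩ | ⟨x, y, hx, hy, hxC, hxy, rfl⟩) (he | ⟨x', hx', h⟩ |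
          ⟨x', y', hx', hy', hxy', h⟩)
        · rw [mem_singleton_iff] at he
          simp at he
        · have h5 := Sum.inl_injective h
          exact (hSmem x' (by simpa using hx')).2 (h5 ▸ hx)
        · simp at h
        · rw [mem_singleton_iff] at he
          have h5 := Sum.inr_injective he
          rw [Sym2.eq_iff] at h5
          rcases h5 with ⟨h6, _⟩ | ⟨h6, _⟩
          · exact hSC _ g1 (by rw [← h6]; simpa using hxC)
          · exact hzC (by rw [← h6]; simpa using hxC)
        · simp at h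
        · have h5 := Sum.inr_injective h
          rw [Sym2.eq_iff] at h5
          rcases h5 with ⟨h6, _⟩ | ⟨h6, _⟩
          · exact hSC x' (by simpa using hx') (by rw [← h6]; simpa using hxC)
          · exact hSC y' (by simpa using hy') (by rw [← h6]; simpa using hxC)
      have h5 : α * q * μ.real (EC C) *
          ((r (Sum.inr s(z.1, z.2)) : ℝ) * μ.real (QM (S : Set (V n)) 0 z.1)) ≤
          μ.real (goodN R A (C : Set (V n)) z.2 u ∩ (O ∩ QM (S : Set (V n)) 0 z.1)) := by
        rw [i2, i1, hO']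
        exact mul_le_mul_of_nonneg_right (hgood z.2 u hzC g6)
          (mul_nonneg (r _).2.1 measureReal_nonneg)
      refine h5.trans (measureReal_mono ?_ (measure_ne_top _ _))
      rintro ω ⟨hω, hωO, h0, hr⟩
      refine hpiv z.2 u hzR g5 g6 ω hω ?_
      have hle := Hm_le (upd_true_le (Sum.inl z.2) ω) hSB (empty_subset A)
      refine (hr.mono hle).trans (SimpleGraph.Adj.reachable ?_)
      refine ⟨(hSmem _ g1).1, hzR, g3, ?_, ?_, Or.inr (upd_self _ _ _)⟩
      · rw [upd_ne (by simp)]; exact hωO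
      · exact Or.inr (upd_true_le (Sum.inl z.2) ω _
          ((reachM_open hr (Or.inr h0)).resolve_left (fun h => h.elim)))
    have hphiS := hphi S D h0S hSmem2 hDmem
    have hn0 : 0 ≤ α * q * μ.real (EC C) := by positivity
    calc α * q * μ.real (EC C) ≤ α * q * μ.real (EC C) *
          ∑ z ∈ Z, (r (Sum.inr s(z.1, z.2)) : ℝ) * μ.real (QM (S : Set (V n)) 0 z.1) := by
          have : 1 ≤ ∑ z ∈ Z, (r (Sum.inr s(z.1, z.2)) : ℝ) *
            μ.real (QM (S : Set (V n)) 0 z.1) := by rw [hZ]; exact hphiS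
          nlinarith
      _ = ∑ z ∈ Z, α * q * μ.real (EC C) *
          ((r (Sum.inr s(z.1, z.2)) : ℝ) * μ.real (QM (S : Set (V n)) 0 z.1)) := by
          rw [Finset.mul_sum]
      _ ≤ ∑ z ∈ Z, μ.real ((Piv (armM n k) (Sum.inl z.2) ∩
          {ω | ω (Sum.inl z.2) = false}) ∩ EC C) := Finset.sum_le_sum hz
      _ = ∑ v ∈ D, ∑ y ∈ S, if NN y v then μ.real ((Piv (armM n k) (Sum.inl v) ∩
          {ω | ω (Sum.inl v) = false}) ∩ EC C) else 0 := by
          rw [hZ, Finset.sum_filter, Finset.sum_product_right]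
      _ ≤ ∑ v ∈ D, (c : ℝ) * μ.real ((Piv (armM n k) (Sum.inl v) ∩
          {ω | ω (Sum.inl v) = false}) ∩ EC C) := by
          refine Finset.sum_le_sum fun v hv => ?_
          rw [← Finset.sum_filter, Finset.sum_const, nsmul_eq_mul]
          refine mul_le_mul_of_nonneg_right ?_ measureReal_nonneg
          have := hc v (S.filter fun y => NN y v) fun y hy => (Finset.mem_filter.1 hy).2
          exact_mod_cast this
      _ ≤ ∑ v ∈ bF, (c : ℝ) * μ.real ((Piv (armM n k) (Sum.inl v) ∩
          {ω | ω (Sum.inl v) = false}) ∩ EC C) :=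
          Finset.sum_le_sum_of_subset_of_nonneg (Finset.filter_subset _ _) fun _ _ _ =>
            mul_nonneg (by linarith) measureReal_nonneg
      _ = _ := by rw [Finset.mul_sum]
  rw [hone, Finset.mul_sum]
  calc ∑ C ∈ Cs, α * q * μ.real (EC C) ≤ ∑ C ∈ Cs, (c : ℝ) * ∑ v ∈ bF,
        μ.real ((Piv (armM n k) (Sum.inl v) ∩ {ω | ω (Sum.inl v) = false}) ∩ EC C) :=
        Finset.sum_le_sum hC
    _ = c * ∑ v ∈ bF, ∑ C ∈ Cs, μ.real ((Piv (armM n k) (Sum.inl v) ∩
          {ω | ω (Sum.inl v) = false}) ∩ EC C) := by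
        rw [← Finset.mul_sum, Finset.sum_comm]
    _ ≤ c * ∑ v ∈ bF, μ.real (Piv (armM n k) (Sum.inl v) ∩ {ω | ω (Sum.inl v) = false}) := by
        refine mul_le_mul_of_nonneg_left ?_ (Nat.cast_nonneg c)
        refine Finset.sum_le_sum fun v hv => ?_
        have hmeas : MeasurableSet (Piv (armM n k) (Sum.inl v) ∩ {ω | ω (Sum.inl v) = false}) :=
          (mdep _ (dep_Piv (armM_dep k) _)).inter (meas_coord _ false)
        rw [← measureReal_biUnion_finset]
        · refine measureReal_mono ?_ (measure_ne_top _ _)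
          refine Set.iUnion₂_subset fun C _ => inter_subset_left
        · intro C _ C' _ hne
          exact Set.disjoint_of_subset inter_subset_right inter_subset_right (hdisj C C' hne)
        · intro C _; exact hmeas.inter (mEC C)

/-- the arm probabilities are bounded from below -/
lemma armN_lower (hI : S_indep) (hD : S_depmeas) (hM : S_mono) (m : ℕ) (s : ℝ)
    (p a a' : unitInterval) (haa : a < a') (c : ℕ) (hc1 : 1 ≤ c)
    (hc : ∀ (v : V n) (T : Finset (V n)), (∀ y ∈ T, NN y v) → T.card ≤ c)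
    (hcon : ∀ S : Finset (V n), 0 ∈ S → 1 ≤ phiM a p 0 s m S 0) (k : ℕ) :
    1 - Real.exp (-(((a' : ℝ) - a) * ((1 - (a' : ℝ)) * p / c))) ≤
      (pm (prob (n := n) a' p 0 s m)).real (armM n k) := by
  classical
  set δ : ℝ := (1 - (a' : ℝ)) * p / c with hδ
  have hc0 : (0 : ℝ) < c := by exact_mod_cast hc1
  have hp0 : (0 : ℝ) ≤ p := p.2.1
  have hq0 : (0 : ℝ) ≤ 1 - a' := by linarith [a'.2.2]
  have hδ0 : 0 ≤ δ := by positivity
  set bF := (CB_finite (n := n) k k).toFinset with hbFdef
  have hbF : ∀ v, v ∈ bF ↔ v ∈ (CB k k : Set (V n)) := fun v => by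
    rw [hbFdef, Set.Finite.mem_toFinset]
  have hfinB : (nnI (CB k k : Set (V n))).Finite := nnI_finite (CB_finite k k)
  set EB : Finset (Ix n) := hfinB.toFinset with hEBdef
  set ES : Finset (Ix n) := bF.map ⟨Sum.inl, Sum.inl_injective⟩ with hESdef
  have hES : (ES : Set (Ix n)) = siI (CB k k : Set (V n)) := by
    ext e
    simp only [hESdef, Finset.coe_map, Function.Embedding.coeFn_mk, Set.mem_image, Finset.mem_coe,
      hbF]
    constructor
    · rintro ⟨x, hx, rfl⟩; exact ⟨x, hx, rfl⟩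
    · rintro ⟨x, hx, rfl⟩; exact ⟨x, hx, rfl⟩
  set E : Finset (Ix n) := ES ∪ EB with hEdef
  have hE : (E : Set (Ix n)) = siI (CB k k : Set (V n)) ∪ nnI (CB k k : Set (V n)) := by
    rw [hEdef, Finset.coe_union, hES, hEBdef, Set.Finite.coe_toFinset]
  have hdep : DepOn (armM n k) (E : Set (Ix n)) := by
    rw [hE]; exact armM_dep k
  set F : ℝ → ℝ := fun t => EE E (rpM n t p) (I1 (armM n k)) with hF
  have hFq : ∀ q : unitInterval, F q = (pm (prob (n := n) q p 0 s m)).real (armM n k) := by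
    intro q
    rw [pm_eq_EE hI hD _ hdep]
    have : rpM n (q : ℝ) p = fun c => (prob (n := n) q p 0 s m c : ℝ) := by
      funext c; exact (probM_eq q p s m c).symm
    rw [hF]
    simp only [this]
  have hmono : ∀ q : unitInterval, a ≤ q → ∀ c, prob (n := n) a p 0 s m c ≤
      prob (n := n) q p 0 s m c := by
    intro q hq c
    rw [← Subtype.coe_le_coe, probM_eq, probM_eq]
    cases c with
    | inl x => exact hq
    | inr e => exact le_refl _
  have hder : ∀ t : ℝ, (a : ℝ) ≤ t → t ≤ a' → ∃ D, HasDerivAt F D t ∧ δ * (1 - F t) ≤ D := by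
    intro t h1 h2
    have ht0 : 0 ≤ t := le_trans a.2.1 h1
    have ht1 : t ≤ 1 := le_trans h2 a'.2.2
    set q : unitInterval := ⟨t, ht0, ht1⟩ with hq
    have hpq : a ≤ q := h1
    set r := prob (n := n) q p 0 s m with hr
    set ρ' : Ix n → ℝ := fun c => match c with
      | Sum.inl _ => 1
      | Sum.inr e => 0 with hρ'
    have hd := russo_pm hI hD r hdep (armM_inc k) (fun t => rpM n t p) ρ' t (by
      intro c
      cases c with
      | inl x => simpa [rpM, hρ'] using hasDerivAt_id' t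
      | inr e =>
        by_cases he : isNN e
        · simpa [rpM, hρ', he] using hasDerivAt_const t (p : ℝ)
        · simpa [rpM, hρ', he] using hasDerivAt_const t (0 : ℝ)) (by
      intro c
      rw [hr, probM_eq])
    refine ⟨_, hd, ?_⟩
    have hrNN : ∀ z u : V n, NN z u → (r (Sum.inr s(z, u)) : ℝ) = p := by
      intro z u hzu
      rw [hr, probM_eq]; simp [rpM, isNN_iff, hzu]
    have hrS : ∀ z : V n, (r (Sum.inl z) : ℝ) = t := by
      intro z
      rw [hr, probM_eq]; rfl
    have h3 := piv_lowerN hI hD r k bF hbF c hc1 hc (1 - (a' : ℝ)) (p : ℝ) hq0 hp0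
      (fun z => by rw [hrS]; linarith)
      (fun z u hzu => by rw [hrNN z u hzu]) (by
        intro S C h0 hS hC
        refine (hcon S h0).trans ((phiM_le_pairs a p s m k S C hS hC).trans ?_)
        refine Finset.sum_le_sum fun z hz => ?_
        have hzN : NN z.1 z.2 := (Finset.mem_filter.1 hz).2
        have hfin' : (siI (S : Set (V n)) ∪ nnI (S : Set (V n))).Finite :=
          (siI_finite S.finite_toSet).union (nnI_finite S.finite_toSet)
        have hmeas : MeasurableSet (QM (S : Set (V n)) 0 z.1) := by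
          refine hD _ hfin'.toFinset _ ?_
          rw [Set.Finite.coe_toFinset]; exact dep_QM _ _ _ (by simpa using h0)
        rw [hrNN z.1 z.2 hzN]
        refine mul_le_mul_of_nonneg_left ?_ hp0
        exact ENNReal.toReal_mono (measure_ne_top _ _)
          (hM _ _ _ _ (hmono q hpq) (inc_QM _ _ _) hmeas))
    have h4 : F t = (pm r).real (armM n k) := hFq q
    rw [h4]
    have h5 : δ * (1 - (pm r).real (armM n k)) ≤
        ∑ v ∈ bF, (pm r).real (Piv (armM n k) (Sum.inl v) ∩ {ω | ω (Sum.inl v) = false}) := by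
      rw [hδ, div_mul_eq_mul_div, div_le_iff₀ hc0, mul_comm _ (c : ℝ)]
      exact h3
    refine h5.trans ?_
    have hsub : ES ⊆ E := Finset.subset_union_left
    have hρ0 : ∀ e, 0 ≤ ρ' e := by
      intro e
      cases e with
      | inl x => simp only [hρ']; norm_num
      | inr e => exact le_refl _
    refine le_trans ?_ (Finset.sum_le_sum_of_subset_of_nonneg hsub fun e _ _ =>
      mul_nonneg (hρ0 e) measureReal_nonneg)
    rw [hESdef, Finset.sum_map]
    refine Finset.sum_le_sum fun v hv => ?_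
    simp only [Function.Embedding.coeFn_mk, hρ', one_mul]
    exact measureReal_mono inter_subset_left (measure_ne_top _ _)
  set g : ℝ → ℝ := fun t => (1 - F t) * Real.exp (δ * t) with hg
  have hgder : ∀ t : ℝ, (a : ℝ) ≤ t → t ≤ a' → ∃ D, HasDerivAt g D t ∧ D ≤ 0 := by
    intro t h1 h2
    obtain ⟨D, hD, hD2⟩ := hder t h1 h2
    have he : HasDerivAt (fun t : ℝ => Real.exp (δ * t)) (Real.exp (δ * t) * (δ * 1)) t :=
      ((hasDerivAt_id' t).const_mul δ).exp
    have h3 := ((hasDerivAt_const t (1 : ℝ)).sub hD).mul he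
    refine ⟨_, h3, ?_⟩
    simp only [Pi.sub_apply]
    have h4 := Real.exp_pos (δ * t)
    nlinarith
  have hpp' : (a : ℝ) < a' := haa
  have hanti : AntitoneOn g (Set.Icc (a : ℝ) a') := by
    refine antitoneOn_of_deriv_nonpos (convex_Icc _ _) ?_ ?_ ?_
    · intro t ht
      obtain ⟨D, hD, _⟩ := hgder t ht.1 ht.2
      exact hD.continuousAt.continuousWithinAt
    · intro t ht
      rw [interior_Icc] at ht
      obtain ⟨D, hD, _⟩ := hgder t ht.1.le ht.2.le
      exact hD.differentiableAt.differentiableWithinAt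
    · intro t ht
      rw [interior_Icc] at ht
      obtain ⟨D, hD, hD2⟩ := hgder t ht.1.le ht.2.le
      rw [hD.deriv]; exact hD2
  have h1 := hanti (Set.left_mem_Icc.2 hpp'.le) (Set.right_mem_Icc.2 hpp'.le) hpp'.le
  have h3 : 0 ≤ F a := by rw [hFq a]; exact measureReal_nonneg
  rw [← hFq a']
  simp only [hg] at h1
  have h4 : (1 - F a) * Real.exp (δ * a) ≤ Real.exp (δ * a) := by
    have := Real.exp_pos (δ * (a : ℝ))
    nlinarith
  have h5 : (1 - F a') ≤ Real.exp (-(((a' : ℝ) - a) * δ)) := by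
    have h6 : Real.exp (-(((a' : ℝ) - a) * δ)) * Real.exp (δ * a') = Real.exp (δ * a) := by
      rw [← Real.exp_add]; congr 1; ring
    have h7 := Real.exp_pos (δ * (a' : ℝ))
    have h8 : (1 - F a') * Real.exp (δ * a') ≤
        Real.exp (-(((a' : ℝ) - a) * δ)) * Real.exp (δ * a') := by rw [h6]; linarith
    exact le_of_mul_le_mul_right h8 h7
  linarith

/-- If the arm probabilities are bounded from below there is percolation. -/
lemma perc_of_arm (hR : S_reach_meas) (m : ℕ) (s : ℝ) (a p : unitInterval) (b : ℝ)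
    (h : ∀ k, b ≤ (pm (prob (n := n) a p 0 s m)).real (armM n (k + 2))) :
    b ≤ (pm (prob (n := n) a p 0 s m)).real (Perc (EdI m) 0) := by
  classical
  set μ := pm (prob (n := n) a p 0 s m) with hμ
  set B : ℕ → Set (Cfg n) := fun k =>
    {ω | ∃ y : V n, y ∉ (CB k k : Set (V n)) ∧ (G (EdI m) ω univ).Reachable 0 y} with hB
  have hBm : ∀ k, MeasurableSet (B k) := by
    intro k
    have : B k = ⋃ y : V n, ⋃ (_ : y ∉ (CB k k : Set (V n))),
        {ω | (G (EdI m) ω univ).Reachable 0 y} := by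
      ext ω; simp [hB]
    rw [this]
    exact MeasurableSet.iUnion fun y => MeasurableSet.iUnion fun _ => hR n _ _ _ _
  have hBanti : Antitone B := by
    intro k l hkl ω hω
    obtain ⟨y, hy, hr⟩ := hω
    refine ⟨y, fun h => hy ?_, hr⟩
    have hkl' : (k : ℤ) ≤ l := by exact_mod_cast hkl
    exact ⟨h.1.trans hkl', fun i => (h.2 i).trans hkl'⟩
  have hsubP : (⋂ k, B k) ⊆ Perc (EdI m) (0 : V n) := by
    intro ω hω
    rw [mem_iInter] at hω
    show (cl (EdI m) ω univ 0).Infinite
    intro hfin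
    obtain ⟨M, hM⟩ : ∃ M : ℕ, ∀ v ∈ hfin.toFinset, v ∈ (CB M M : Set (V n)) := by
      refine ⟨∑ v ∈ hfin.toFinset, (v.1.natAbs + ∑ i, (v.2 i).natAbs), fun v hv => ?_⟩
      have h1 := Finset.single_le_sum (f := fun v : V n => (v.1.natAbs + ∑ i, (v.2 i).natAbs))
          (fun _ _ => Nat.zero_le _) hv
      constructor
      · have h2 : v.1.natAbs ≤ ∑ v ∈ hfin.toFinset, (v.1.natAbs + ∑ i, (v.2 i).natAbs) :=
          (Nat.le_add_right _ _).trans h1
        rw [Int.abs_eq_natAbs]
        exact_mod_cast h2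
      · intro i
        have h3 : (v.2 i).natAbs ≤ ∑ i, (v.2 i).natAbs :=
          Finset.single_le_sum (f := fun i => (v.2 i).natAbs) (fun _ _ => Nat.zero_le _)
            (Finset.mem_univ i)
        have h2 : (v.2 i).natAbs ≤ ∑ v ∈ hfin.toFinset, (v.1.natAbs + ∑ i, (v.2 i).natAbs) :=
          (h3.trans (Nat.le_add_left _ _)).trans h1
        rw [Int.abs_eq_natAbs]
        exact_mod_cast h2
    obtain ⟨y, hy, hr⟩ := hω M
    exact hy (hM y (by rw [Set.Finite.mem_toFinset]; exact hr))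
  have hlow : ∀ k, b ≤ μ.real (B k) := by
    intro k
    refine (h k).trans ?_
    have h2 : μ (armM n (k + 2)) ≤ μ (B k) := by
      refine measure_mono_ae ?_
      filter_upwards [ae_OmM (n := n) a p s m] with ω hω
      intro harm
      obtain ⟨y, hy, hr⟩ := arm_out harm
      exact ⟨y, hy, by rw [G_eq_Hm hω]; exact hr⟩
    exact ENNReal.toReal_mono (measure_ne_top _ _) h2
  have hlim := tendsto_measure_iInter_atTop (μ := μ) (s := B)
    (fun k => (hBm k).nullMeasurableSet) hBanti ⟨0, measure_ne_top _ _⟩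
  have hPc : b ≤ μ.real (⋂ k, B k) := by
    have h1 : Filter.Tendsto (fun k => μ.real (B k)) Filter.atTop
        (nhds (μ.real (⋂ k, B k))) := by
      unfold Measure.real
      exact (ENNReal.tendsto_toReal (measure_ne_top _ _)).comp hlim
    exact ge_of_tendsto' h1 hlow
  exact hPc.trans (measureReal_mono hsubP (measure_ne_top _ _))

/-- Duminil-Copin and Tassion for mixed percolation, varying density of the sites -/
theorem s_dctN (hI : S_indep) (hD : S_depmeas) (hM : S_mono) (hR : S_reach_meas)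
    (hP : S_perc_meas) (m : ℕ) (s : ℝ) (p a a' : unitInterval) (hp : 0 < p) (haa : a < a')
    (h0' : (pm (prob (n := n) a' p 0 s m)).real (Perc (EdI m) 0) = 0) :
    ∃ S : Finset (V n), 0 ∈ S ∧ phiM a p 0 s m S 0 < 1 := by
  classical
  by_contra hcon
  push Not at hcon
  obtain ⟨c, hc1, hc⟩ := nb_boundN n
  have hppr : (a : ℝ) < a' := haa
  have hp1 : ((a : ℝ) + a') / 2 ∈ Icc (0 : ℝ) 1 := ⟨by linarith [a.2.1, a'.2.1],
    by linarith [a.2.2, a'.2.2]⟩
  set a1 : unitInterval := ⟨_, hp1⟩ with ha1def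
  have ha1v : (a1 : ℝ) = ((a : ℝ) + a') / 2 := rfl
  have haa1 : a < a1 := by
    show (a : ℝ) < ((a : ℝ) + a') / 2
    linarith
  have ha1lt : (a1 : ℝ) < 1 := by rw [ha1v]; linarith [a'.2.2]
  have ha1le : ∀ c, prob (n := n) a1 p 0 s m c ≤ prob (n := n) a' p 0 s m c := by
    intro c
    rw [← Subtype.coe_le_coe, probM_eq, probM_eq]
    cases c with
    | inl x => show (a1 : ℝ) ≤ a'; rw [ha1v]; linarith
    | inr e => exact le_refl _
  have h0 : (pm (prob (n := n) a1 p 0 s m)).real (Perc (EdI m) 0) = 0 := by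
    have h1 : (pm (prob (n := n) a1 p 0 s m)).real (Perc (EdI m) 0) ≤
        (pm (prob (n := n) a' p 0 s m)).real (Perc (EdI m) 0) :=
      ENNReal.toReal_mono (measure_ne_top _ _) (hM _ _ _ _ ha1le (Perc_incM _ _) (hP _ _ _))
    exact le_antisymm (h1.trans h0'.le) measureReal_nonneg
  set δ : ℝ := ((a1 : ℝ) - a) * ((1 - (a1 : ℝ)) * p / c) with hδ
  have hlow := perc_of_arm hR m s a1 p (1 - Real.exp (-δ)) fun k =>
    armN_lower hI hD hM m s p a a1 haa1 c hc1 hc hcon (k + 2)
  have hδ0 : 0 < δ := by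
    have h1 : (0 : ℝ) < p := hp
    have h2 : (0 : ℝ) < c := by exact_mod_cast hc1
    have h3 : 0 < (a1 : ℝ) - a := by rw [ha1v]; linarith
    have h4 : 0 < 1 - (a1 : ℝ) := by linarith
    rw [hδ]
    positivity
  have hexp : Real.exp (-δ) < 1 := by
    rw [Real.exp_lt_one_iff]
    linarith
  rw [h0] at hlow
  linarith

end TH526.PM
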