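import Pool.Agent.W462.PC.DctS

/-!
# The open graph of mixed (site and bond) nearest-neighbour percolation

Adapted from the bond version (helper424) and the site version (helper462) of the library `W783`.
-/

set_option autoImplicit false
set_option linter.all false
set_option linter.deprecated false

open MeasureTheory Set

namespace TH526.PM

open Pool.Agent.W783.PC Pool.Agent.W424.PC Pool.Agent.W462.PC

variable {n : ℕ}

/-- open bonds between open sites inside `R`; the sites of `A` count as open -/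
def Hm (ω : Cfg n) (R A : Set (V n)) : SimpleGraph (V n) where
  Adj x y := x ∈ R ∧ y ∈ R ∧ NN x y ∧ ω (Sum.inr s(x, y)) = true ∧
    (x ∈ A ∨ ω (Sum.inl x) = true) ∧ (y ∈ A ∨ ω (Sum.inl y) = true)
  symm := ⟨fun x y ⟨h1, h2, h3, h4, h5, h6⟩ => ⟨h2, h1, NN_symm h3, by rwa [Sym2.eq_swap], h6, h5⟩⟩
  loopless := ⟨fun x h => not_NN_self x h.2.2.1⟩

lemma Hm_le {ω ω' : Cfg n} {R R' A A' : Set (V n)} (h : ∀ c, ω c = true → ω' c = true)
    (hR : R ⊆ R') (hA : A ⊆ A') : Hm ω R A ≤ Hm ω' R' A' := by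
  intro x y hxy
  exact ⟨hR hxy.1, hR hxy.2.1, hxy.2.2.1, h _ hxy.2.2.2.1,
    hxy.2.2.2.2.1.imp (fun h => hA h) (fun h' => h _ h'),
    hxy.2.2.2.2.2.imp (fun h => hA h) (fun h' => h _ h')⟩

/-- nearest-neighbour bonds closed except in the lattice: other bonds closed -/
def OmM (n : ℕ) : Set (Cfg n) := {ω | ∀ e, ¬ isNN e → ω (Sum.inr e) = false}

lemma G_eq_Hm {ω : Cfg n} (hω : ω ∈ OmM n) (m : ℕ) (R : Set (V n)) :
    G (EdI m) ω R = Hm ω R ∅ := by
  ext x y
  constructor
  · rintro ⟨h1, h2, h3, h4, h5, h6, h7⟩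
    refine ⟨h2, h3, ?_, h7, Or.inr h5, Or.inr h6⟩
    by_contra h8
    have := hω s(x, y) (fun h => h8 (isNN_iff.1 h))
    rw [this] at h7
    simp at h7
  · rintro ⟨h1, h2, h3, h4, h5, h6⟩
    refine ⟨?_, h1, h2, Or.inl (isNN_iff.2 h3), h5.resolve_left (fun h => h.elim),
      h6.resolve_left (fun h => h.elim), h4⟩
    rintro rfl
    exact not_NN_self _ h3

/-- the real parameters -/
noncomputable def rpM (n : ℕ) (a t : ℝ) (c : Ix n) : ℝ :=
  open scoped Classical in
  match c with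
  | Sum.inl _ => a
  | Sum.inr e => if isNN e then t else 0

lemma probM_eq (a q : unitInterval) (s : ℝ) (m : ℕ) (c : Ix n) :
    (prob (n := n) a q 0 s m c : ℝ) = rpM n a q c := by
  classical
  cases c with
  | inl x => simp [prob, rpM]
  | inr e =>
    simp only [prob, rpM]
    by_cases h : isNN e
    · simp [h]
    · by_cases h2 : isLg m e
      · simp [h, h2, lrp]
      · simp [h, h2]

lemma ae_OmM (a q : unitInterval) (s : ℝ) (m : ℕ) :
    ∀ᵐ ω ∂(pm (prob (n := n) a q 0 s m)), ω ∈ OmM n := by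
  classical
  set r := prob (n := n) a q 0 s m with hr
  have h2 : ∀ᵐ ω ∂(pm r), ∀ e, ¬ isNN e → ω (Sum.inr e) = false := by
    rw [ae_all_iff]
    intro e
    by_cases he : isNN e
    · exact Filter.Eventually.of_forall fun ω h => absurd he h
    · rw [ae_iff]
      have h := (Pool.Agent.W424.PC.pm_coord r (Sum.inr e)).1
      have h2 : (r (Sum.inr e) : ℝ) = 0 := by rw [hr, probM_eq]; simp [rpM, he]
      rw [h2, measureReal_def, ENNReal.toReal_eq_zero_iff] at h
      rcases h with h | h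
      · rw [← h]; congr 1; ext ω; simp [he]
      · exact absurd h (measure_ne_top _ _)
  filter_upwards [h2] with ω b using b

lemma Hm_congr {ω ω' : Cfg n} {R A : Set (V n)} (h : ∀ c ∈ siI R ∪ nnI R, ω c = ω' c) :
    Hm ω R A = Hm ω' R A := by
  ext x y
  constructor
  · rintro ⟨h1, h2, h3, h4, h5, h6⟩
    refine ⟨h1, h2, h3, ?_, ?_, ?_⟩
    · rw [← h _ (Or.inr ⟨x, y, h1, h2, h3, rfl⟩)]; exact h4
    · rw [← h _ (Or.inl ⟨x, h1, rfl⟩)]; exact h5
    · rw [← h _ (Or.inl ⟨y, h2, rfl⟩)]; exact h6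
  · rintro ⟨h1, h2, h3, h4, h5, h6⟩
    refine ⟨h1, h2, h3, ?_, ?_, ?_⟩
    · rw [h _ (Or.inr ⟨x, y, h1, h2, h3, rfl⟩)]; exact h4
    · rw [h _ (Or.inl ⟨x, h1, rfl⟩)]; exact h5
    · rw [h _ (Or.inl ⟨y, h2, rfl⟩)]; exact h6

/-- the cluster of the set `A` (all of whose sites count as open) -/
def cluM (ω : Cfg n) (R A : Set (V n)) : Set (V n) := {v | ∃ a ∈ A, (Hm ω R A).Reachable a v}

lemma reachM_mem {ω : Cfg n} {R A : Set (V n)} {x y : V n} (h : (Hm ω R A).Reachable x y)
    (hx : x ∈ R) : y ∈ R := by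
  rw [SimpleGraph.reachable_iff_reflTransGen] at h
  induction h with
  | refl => exact hx
  | tail _ h _ => exact h.2.1

lemma reachM_open {ω : Cfg n} {R A : Set (V n)} {x y : V n} (h : (Hm ω R A).Reachable x y)
    (hx : x ∈ A ∨ ω (Sum.inl x) = true) : y ∈ A ∨ ω (Sum.inl y) = true := by
  rw [SimpleGraph.reachable_iff_reflTransGen] at h
  induction h with
  | refl => exact hx
  | tail _ h _ => exact h.2.2.2.2.2

lemma cluM_open {ω : Cfg n} {R A : Set (V n)} {v : V n} (h : v ∈ cluM ω R A) :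
    v ∈ A ∨ ω (Sum.inl v) = true := by
  obtain ⟨a, ha, h2⟩ := h
  exact reachM_open h2 (Or.inl ha)

lemma sub_cluM (ω : Cfg n) (R A : Set (V n)) : A ⊆ cluM ω R A :=
  fun v hv => ⟨v, hv, SimpleGraph.Reachable.refl _⟩

lemma cluM_adj {ω : Cfg n} {R A : Set (V n)} {u v : V n} (hu : u ∈ cluM ω R A)
    (h : (Hm ω R A).Adj u v) : v ∈ cluM ω R A := by
  obtain ⟨a, ha, hr⟩ := hu
  exact ⟨a, ha, hr.trans (SimpleGraph.Adj.reachable h)⟩

lemma cluM_le {ω ω' : Cfg n} {R A : Set (V n)} (h : ∀ c, ω c = true → ω' c = true) :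
    cluM ω R A ⊆ cluM ω' R A := by
  rintro v ⟨a, ha, h2⟩
  exact ⟨a, ha, h2.mono (Hm_le h subset_rfl subset_rfl)⟩

/-- Two configurations have the same cluster `C` if they have the same adjacencies at `C`. -/
lemma cluM_eq_of {ω ω' : Cfg n} {R A C : Set (V n)} (hC : cluM ω R A = C)
    (h1 : ∀ c ∈ C, ∀ d, (Hm ω' R A).Adj c d → (Hm ω R A).Adj c d)
    (h2 : ∀ c ∈ C, ∀ d ∈ C, (Hm ω R A).Adj c d → (Hm ω' R A).Adj c d) :
    cluM ω' R A = C := by
  ext v
  constructor
  · rintro ⟨a, ha, hr⟩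
    rw [SimpleGraph.reachable_iff_reflTransGen] at hr
    induction hr with
    | refl => rw [← hC]; exact sub_cluM ω R A ha
    | @tail c d _ hcd ih =>
      have h3 := h1 c ih d hcd
      rw [← hC] at ih ⊢
      exact cluM_adj ih h3
  · intro hv
    rw [← hC] at hv
    obtain ⟨a, ha, hr⟩ := hv
    refine ⟨a, ha, ?_⟩
    rw [SimpleGraph.reachable_iff_reflTransGen] at hr
    induction hr with
    | refl => exact SimpleGraph.Reachable.refl _
    | @tail c d hac hcd ih =>
      have hcC : c ∈ C := by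
        rw [← hC]
        exact ⟨a, ha, (SimpleGraph.reachable_iff_reflTransGen a c).2 hac⟩
      have hdC : d ∈ C := by
        rw [← hC] at hcC ⊢
        exact cluM_adj hcC hcd
      exact ih.trans (SimpleGraph.Adj.reachable (h2 c hcC d hdC hcd))

/-- sites explored by the cluster `C` -/
def wM (R C : Set (V n)) : Set (V n) := {v | v ∈ R ∧ (v ∈ C ∨ ∃ u ∈ C, NN u v)}

/-- coordinates explored by the cluster `C` -/
def exM (R C : Set (V n)) : Set (Ix n) := siI (wM R C) ∪ tch R C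

lemma exM_sub (R C : Set (V n)) : exM R C ⊆ siI R ∪ nnI R := by
  rintro c (⟨x, hx, rfl⟩ | ⟨x, y, hx, hy, _, hxy, rfl⟩)
  · exact Or.inl ⟨x, hx.1, rfl⟩
  · exact Or.inr ⟨x, y, hx, hy, hxy, rfl⟩

lemma dep_cluM (R A C : Set (V n)) :
    DepOn {ω : Cfg n | cluM ω R A = C} (exM R C) := by
  have adj : ∀ ω ω' : Cfg n, (∀ i ∈ exM R C, ω i = ω' i) → ∀ c ∈ C, ∀ d,
      (Hm ω R A).Adj c d → (Hm ω' R A).Adj c d := by
    rintro ω ω' h c hc d ⟨h1, h2, h3, h4, h5, h6⟩
    refine ⟨h1, h2, h3, ?_, ?_, ?_⟩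
    · rw [← h _ (Or.inr ⟨c, d, h1, h2, hc, h3, rfl⟩)]; exact h4
    · rw [← h _ (Or.inl ⟨c, ⟨h1, Or.inl hc⟩, rfl⟩)]; exact h5
    · rw [← h _ (Or.inl ⟨d, ⟨h2, Or.inr ⟨c, hc, h3⟩⟩, rfl⟩)]; exact h6
  have key : ∀ ω ω' : Cfg n, (∀ i ∈ exM R C, ω i = ω' i) → cluM ω R A = C →
      cluM ω' R A = C := by
    intro ω ω' h hC
    refine cluM_eq_of hC (adj ω' ω fun i hi => (h i hi).symm) fun c hc d _ => adj ω ω' h c hc d
  intro ω ω' h
  exact ⟨key ω ω' h, key ω' ω fun i hi => (h i hi).symm⟩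

/-- closing a bond between the cluster and a site outside does not change the cluster -/
lemma cluM_close {ω : Cfg n} {R A C : Set (V n)} (hC : cluM ω R A = C) {z u : V n}
    (hz : z ∉ C) : cluM (upd (Sum.inr s(z, u)) false ω) R A = C := by
  have hle : ∀ c, upd (Sum.inr s(z, u)) false ω c = true → ω c = true := by
    intro c hc
    by_cases h : c = Sum.inr s(z, u)
    · rw [h, upd_self] at hc; exact absurd hc (by simp)
    · rwa [upd_ne h] at hc
  refine cluM_eq_of hC (fun c _ d h => Hm_le hle subset_rfl subset_rfl h) ?_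
  rintro c hc d hd ⟨h1, h2, h3, h4, h5, h6⟩
  have hne : (Sum.inr s(c, d) : Ix n) ≠ Sum.inr s(z, u) := by
    intro h
    have h7 := Sum.inr_injective h
    rw [Sym2.eq_iff] at h7
    rcases h7 with ⟨rfl, rfl⟩ | ⟨rfl, rfl⟩
    · exact hz hc
    · exact hz hd
  refine ⟨h1, h2, h3, ?_, ?_, ?_⟩
  · rw [upd_ne hne]; exact h4
  · rw [upd_ne (by simp)]; exact h5
  · rw [upd_ne (by simp)]; exact h6

/-- opening a site whose bonds to the cluster are closed does not change the cluster -/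
lemma cluM_openSite {ω : Cfg n} {R A C : Set (V n)} (hC : cluM ω R A = C) {z : V n}
    (hz : z ∉ C) (hcl : ∀ u ∈ C, NN z u → ω (Sum.inr s(z, u)) = false) :
    cluM (upd (Sum.inl z) true ω) R A = C := by
  refine cluM_eq_of hC ?_ ?_
  · rintro c hc d ⟨h1, h2, h3, h4, h5, h6⟩
    rw [upd_ne (by simp)] at h4
    have hcz : c ≠ z := fun h => hz (h ▸ hc)
    have hdz : d ≠ z := by
      rintro rfl
      have := hcl c hc (NN_symm h3)
      rw [Sym2.eq_swap, this] at h4
      exact absurd h4 (by simp)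
    rw [upd_ne (fun h => hcz (Sum.inl_injective h))] at h5
    rw [upd_ne (fun h => hdz (Sum.inl_injective h))] at h6
    exact ⟨h1, h2, h3, h4, h5, h6⟩
  · intro c _ d _ h
    exact Hm_le (upd_true_le (Sum.inl z) ω) subset_rfl subset_rfl h

/-- the open connection event in a region -/
def QM (S : Set (V n)) (x y : V n) : Set (Cfg n) :=
  {ω | ω (Sum.inl x) = true ∧ (Hm ω S ∅).Reachable x y}

lemma dep_QM (S : Set (V n)) (x y : V n) (hx : x ∈ S) : DepOn (QM S x y) (siI S ∪ nnI S) := by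
  intro ω ω' h
  show (ω (Sum.inl x) = true ∧ (Hm ω S ∅).Reachable x y) ↔
    (ω' (Sum.inl x) = true ∧ (Hm ω' S ∅).Reachable x y)
  rw [Hm_congr h, h _ (Or.inl ⟨x, hx, rfl⟩)]

lemma inc_QM (S : Set (V n)) (x y : V n) : Inc (QM S x y) := by
  intro ω ω' h hω
  exact ⟨h _ hω.1, hω.2.mono (Hm_le h subset_rfl subset_rfl)⟩

/-- the arm event -/
def armM (n k : ℕ) : Set (Cfg n) := {ω | (0 : V n) ∈ cluM ω (CB k k) (Bd n k)}

lemma armM_inc (k : ℕ) : Inc (armM n k) := by
  rintro ω ω' h hω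
  exact cluM_le h hω

lemma armM_dep (k : ℕ) : DepOn (armM n k) (siI (CB k k) ∪ nnI (CB k k)) := by
  intro ω ω' h
  unfold armM cluM
  simp only [mem_setOf_eq]
  rw [Hm_congr h]

/-- The probability of an event which is stable under setting a coordinate to `b`. -/
lemma modify {ι : Type} (hI : S_indep) (r : ι → unitInterval) {A : Set (ι → Bool)}
    (hA : MeasurableSet A) (e : ι) (b : Bool) (h : ∀ ω ∈ A, upd e b ω ∈ A) :
    (if b = true then (r e : ℝ) else 1 - r e) * (pm r).real A ≤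
      (pm r).real (A ∩ {ω | ω e = b}) := by
  have h1 := pm_split hI r (hA.inter (meas_coord e b)) e
  have h2 : (pm r).real A ≤ (pm r).real {ω | upd e b ω ∈ A} :=
    measureReal_mono (fun ω hω => h ω hω) (measure_ne_top _ _)
  have e0 : {ω : ι → Bool | upd e b ω ∈ A ∩ {ω | ω e = b}} = {ω | upd e b ω ∈ A} := by
    ext ω
    simp [upd_self]
  cases b
  · have e1 : {ω : ι → Bool | upd e true ω ∈ A ∩ {ω | ω e = false}} = ∅ := by
      ext ω
      simp [upd_self]
    rw [e1, e0] at h1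
    rw [h1]
    simp only [Bool.false_eq_true, if_false, measureReal_empty, mul_zero, zero_add]
    exact mul_le_mul_of_nonneg_left h2 (by linarith [(r e).2.2])
  · have e1 : {ω : ι → Bool | upd e false ω ∈ A ∩ {ω | ω e = true}} = ∅ := by
      ext ω
      simp [upd_self]
    rw [e1, e0] at h1
    rw [h1]
    simp only [if_true, measureReal_empty, mul_zero, add_zero]
    exact mul_le_mul_of_nonneg_left h2 (r e).2.1

/-- The event that `C` is the cluster, the site `z` is open and its bonds to `C` are closed. -/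
def good (R A C : Set (V n)) (z : V n) : Set (Cfg n) :=
  {ω | cluM ω R A = C ∧ (∀ u ∈ C, NN z u → ω (Sum.inr s(z, u)) = false) ∧
    ω (Sum.inl z) = true}

/-- its probability -/
lemma good_lower (hI : S_indep) (r : Ix n → unitInterval) {R A : Set (V n)} {C : Finset (V n)}
    (hm : MeasurableSet {ω : Cfg n | cluM ω R A = (C : Set (V n))}) {z : V n} (hz : z ∉ C)
    (α q : ℝ) (hα : 0 ≤ α) (hq : 0 ≤ q) (hq1 : q ≤ 1) (c : ℕ)
    (hc : ∀ (T : Finset (V n)), (∀ y ∈ T, NN y z) → T.card ≤ c)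
    (hrα : α ≤ r (Sum.inl z)) (hrq : ∀ u, NN z u → q ≤ 1 - r (Sum.inr s(z, u))) :
    α * q ^ c * (pm r).real {ω : Cfg n | cluM ω R A = (C : Set (V n))} ≤
      (pm r).real (good R A (C : Set (V n)) z) := by
  classical
  -- close the bonds of a set `T` of neighbours
  have key : ∀ T : Finset (V n), (∀ u ∈ T, NN z u) →
      q ^ T.card * (pm r).real {ω : Cfg n | cluM ω R A = (C : Set (V n))} ≤
        (pm r).real {ω : Cfg n | cluM ω R A = (C : Set (V n)) ∧
          ∀ u ∈ T, ω (Sum.inr s(z, u)) = false} := by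
    intro T
    induction T using Finset.induction_on with
    | empty => intro _; simp
    | insert u T hu ih =>
      intro hT
      have hT' : ∀ u ∈ T, NN z u := fun v hv => hT v (Finset.mem_insert_of_mem hv)
      have h1 := ih hT'
      have hmT : MeasurableSet {ω : Cfg n | cluM ω R A = (C : Set (V n)) ∧
          ∀ u ∈ T, ω (Sum.inr s(z, u)) = false} := by
        have : {ω : Cfg n | cluM ω R A = (C : Set (V n)) ∧
          ∀ u ∈ T, ω (Sum.inr s(z, u)) = false} = {ω : Cfg n | cluM ω R A = (C : Set (V n))} ∩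
            ⋂ u ∈ T, {ω : Cfg n | ω (Sum.inr s(z, u)) = false} := by
          ext ω; simp
        rw [this]
        exact hm.inter (Finset.measurableSet_biInter _ fun u _ => meas_coord _ _)
      have h2 := modify hI r hmT (Sum.inr s(z, u)) false (by
        rintro ω ⟨hω1, hω2⟩
        refine ⟨cluM_close hω1 (by simpa using hz), fun v hv => ?_⟩
        by_cases h : (Sum.inr s(z, v) : Ix n) = Sum.inr s(z, u)
        · rw [h, upd_self]
        · rw [upd_ne h]; exact hω2 v hv)
      simp only [Bool.false_eq_true, if_false] at h2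
      have h3 : q ≤ 1 - (r (Sum.inr s(z, u)) : ℝ) := hrq u (hT u (Finset.mem_insert_self _ _))
      rw [Finset.card_insert_of_notMem hu, pow_succ]
      calc q ^ T.card * q * (pm r).real {ω : Cfg n | cluM ω R A = (C : Set (V n))}
          = q * (q ^ T.card * (pm r).real {ω : Cfg n | cluM ω R A = (C : Set (V n))}) := by ring
        _ ≤ (1 - (r (Sum.inr s(z, u)) : ℝ)) * (pm r).real {ω : Cfg n |
            cluM ω R A = (C : Set (V n)) ∧ ∀ u ∈ T, ω (Sum.inr s(z, u)) = false} :=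
            mul_le_mul h3 h1 (by positivity) (hq.trans h3)
        _ ≤ _ := h2
        _ ≤ _ := by
            refine measureReal_mono ?_ (measure_ne_top _ _)
            rintro ω ⟨⟨h4, h5⟩, h6⟩
            refine ⟨h4, fun v hv => ?_⟩
            rcases Finset.mem_insert.1 hv with rfl | hv
            · exact h6
            · exact h5 v hv
  have hk := key (C.filter (fun u => NN z u)) (fun u hu => (Finset.mem_filter.1 hu).2)
  have hcard : (C.filter (fun u => NN z u)).card ≤ c :=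
    hc _ fun y hy => NN_symm (Finset.mem_filter.1 hy).2
  have hmT : MeasurableSet {ω : Cfg n | cluM ω R A = (C : Set (V n)) ∧
      ∀ u ∈ C.filter (fun u => NN z u), ω (Sum.inr s(z, u)) = false} := by
    have : {ω : Cfg n | cluM ω R A = (C : Set (V n)) ∧
      ∀ u ∈ C.filter (fun u => NN z u), ω (Sum.inr s(z, u)) = false} =
        {ω : Cfg n | cluM ω R A = (C : Set (V n))} ∩
        ⋂ u ∈ C.filter (fun u => NN z u), {ω : Cfg n | ω (Sum.inr s(z, u)) = false} := by
      ext ω; simp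
    rw [this]
    exact hm.inter (Finset.measurableSet_biInter _ fun u _ => meas_coord _ _)
  have h2 := modify hI r hmT (Sum.inl z) true (by
    rintro ω ⟨hω1, hω2⟩
    refine ⟨cluM_openSite hω1 (by simpa using hz) (fun u hu hzu =>
      hω2 u (Finset.mem_filter.2 ⟨by simpa using hu, hzu⟩)), fun v hv => ?_⟩
    rw [upd_ne (by simp)]; exact hω2 v hv)
  simp only [if_true] at h2
  have h4 : q ^ c ≤ q ^ (C.filter (fun u => NN z u)).card := pow_le_pow_of_le_one hq hq1 hcard
  have h0 : 0 ≤ (pm r).real {ω : Cfg n | cluM ω R A = (C : Set (V n))} := measureReal_nonneg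
  calc α * q ^ c * (pm r).real {ω : Cfg n | cluM ω R A = (C : Set (V n))}
      = α * (q ^ c * (pm r).real {ω : Cfg n | cluM ω R A = (C : Set (V n))}) := by ring
    _ ≤ (r (Sum.inl z) : ℝ) * (pm r).real {ω : Cfg n | cluM ω R A = (C : Set (V n)) ∧
          ∀ u ∈ C.filter (fun u => NN z u), ω (Sum.inr s(z, u)) = false} :=
        mul_le_mul hrα ((mul_le_mul_of_nonneg_right h4 h0).trans hk) (by positivity)
          (hα.trans hrα)
    _ ≤ _ := h2
    _ ≤ _ := by
        refine measureReal_mono ?_ (measure_ne_top _ _)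
        rintro ω ⟨⟨h4, h5⟩, h6⟩
        exact ⟨h4, fun u hu hzu => h5 u (Finset.mem_filter.2 ⟨by simpa using hu, hzu⟩), h6⟩

lemma dep_good (R A C : Set (V n)) (z : V n) (hz : z ∈ wM R C) (hCR : C ⊆ R) :
    DepOn (good R A C z) (exM R C) := by
  intro ω ω' h
  have h1 := dep_cluM R A C ω ω' h
  refine and_congr h1 (and_congr ?_ ?_)
  · refine forall₂_congr fun u hu => imp_congr_right fun hzu => ?_
    have : ω (Sum.inr s(z, u)) = ω' (Sum.inr s(z, u)) :=
      h _ (Or.inr ⟨u, z, hCR hu, hz.1, hu, NN_symm hzu, by rw [Sym2.eq_swap]⟩)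
    rw [this]
  · have : ω (Sum.inl z) = ω' (Sum.inl z) := h _ (Or.inl ⟨z, hz, rfl⟩)
    rw [this]

/-- opening the bond from `z` to the cluster connects everything joined to `z` -/
lemma good_piv {ω : Cfg n} {R A C : Set (V n)} {z u v : V n} (hz : z ∈ R) (hA : A ⊆ R)
    (hω : ω ∈ good R A C z) (hu : u ∈ C) (hzu : NN z u)
    (hv : (Hm ω R A).Reachable v z) :
    v ∈ cluM (upd (Sum.inr s(z, u)) true ω) R A := by
  obtain ⟨h1, h2, h3⟩ := hω
  have hle := upd_true_le (Sum.inr s(z, u)) ω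
  have hu1 : u ∈ cluM ω R A := by rw [h1]; exact hu
  have huR : u ∈ R := by
    obtain ⟨a, ha, hr⟩ := hu1
    exact reachM_mem hr (hA ha)
  have hu2 := cluM_le hle hu1
  have hu3 := cluM_open hu2
  have hadj : (Hm (upd (Sum.inr s(z, u)) true ω) R A).Adj u z :=
    ⟨huR, hz, NN_symm hzu, by rw [Sym2.eq_swap]; exact upd_self _ _ _, hu3,
      Or.inr (by rw [upd_ne (by simp)]; exact h3)⟩
  obtain ⟨a, ha, hr⟩ := cluM_adj hu2 hadj
  exact ⟨a, ha, hr.trans (hv.mono (Hm_le hle subset_rfl subset_rfl)).symm⟩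

end TH526.PM
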