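import Pool.Agent.TH526.PM.SimonM
import Pool.Agent.TH526.PM.DctN
import Pool.Agent.TH526.PercBond
import Pool.Agent.TH526.PercMixedK

set_option autoImplicit false

open MeasureTheory Set Filter
open scoped Topology

/-!
Mixed site-bond percolation on `Z^(n+1)` with weak long-range bonds: convergence of the whole
critical curve, in both directions, to that of nearest-neighbour mixed percolation.
-/

namespace TH526.PM

open Pool.Agent.W783.PC Pool.Agent.TH526

noncomputable section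

variable {n : ℕ}

/-- The critical bond probability of nearest-neighbour percolation on `Z^(n+1)` with sites of
density `a` (it is `1` if there is no percolation for all `p < 1`). -/
def pcZM (n : ℕ) (a : unitInterval) : unitInterval := crit (fun p => thetaZ n a p)

/-- The critical density of the sites of nearest-neighbour percolation on `Z^(n+1)` with bonds of
probability `p` (it is `1` if there is no percolation for all `a < 1`). -/
def acZM (n : ℕ) (p : unitInterval) : unitInterval := crit (fun a => thetaZ n a p)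

lemma pcM_at_zero (m : ℕ) (s : ℝ) (a : unitInterval) : pcM n m s 0 a = pcZM n a := by
  unfold pcM pcZM
  congr 1
  ext p
  exact theta_zero_eq a p s m

lemma acM_at_zero (m : ℕ) (s : ℝ) (p : unitInterval) : acM n m s 0 p = acZM n p := by
  unfold acM acZM
  congr 1
  ext a
  exact theta_zero_eq a p s m

theorem low_of_phi {m : ℕ} {s : ℝ} (hs : 1 < s) {a p : unitInterval} {S : Finset (V n)}
    (h0 : 0 ∈ S) (h : phiM a p 0 s m S 0 < 1) :
    ∃ β0 : NNReal, 0 < β0 ∧ ∀ β ≤ β0, theta n a p β s m = 0 := by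
  obtain ⟨β0, ρ, hβ0, hρ, h4⟩ := Pool.Agent.W613.PC.general True a p s hs m S h
  exact ⟨β0, hβ0, fun β hβ => s_simonM Pool.Agent.W45.PC.s_indep Pool.Agent.W45.PC.s_depmeas
    Pool.Agent.W333.PC.s_harris n m a p β s hs S ρ h0 hρ (h4 β hβ) 0⟩

/-- Below the critical bond probability of the nearest-neighbour model with sites of density `a`
weak long-range bonds do not create percolation. -/
theorem bond_lowM {m : ℕ} {s : ℝ} (hs : 1 < s) {a p : unitInterval} (ha : 0 < a)
    (hp : p < pcZM n a) : ∃ β0 : NNReal, 0 < β0 ∧ ∀ β ≤ β0, theta n a p β s m = 0 := by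
  have hp' : (p : ℝ) < pcZM n a := hp
  obtain ⟨q, h1, h2, h3⟩ := exists_of_lt_crit (f := fun p => thetaZ n a p) p.2.1 hp'
  have h1' : p < q := h1
  rw [← theta_zero_eq a q s m] at h3
  obtain ⟨S, hS0, hS1⟩ := s_dctM Pool.Agent.W45.PC.s_indep Pool.Agent.W45.PC.s_depmeas
    Pool.Agent.W400.PC.s_mono Pool.Agent.W975.PC.s_reach_meas Pool.Agent.W975.PC.s_perc_meas
    m s a p q ha h1' h3
  exact low_of_phi hs hS0 hS1

/-- Below the critical density of the sites of the nearest-neighbour model with bonds of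
probability `p` weak long-range bonds do not create percolation. -/
theorem site_lowM {m : ℕ} {s : ℝ} (hs : 1 < s) {a p : unitInterval} (hp : 0 < p)
    (ha : a < acZM n p) : ∃ β0 : NNReal, 0 < β0 ∧ ∀ β ≤ β0, theta n a p β s m = 0 := by
  have ha' : (a : ℝ) < acZM n p := ha
  obtain ⟨q, h1, h2, h3⟩ := exists_of_lt_crit (f := fun a => thetaZ n a p) a.2.1 ha'
  have h1' : a < q := h1
  rw [← theta_zero_eq q p s m] at h3
  obtain ⟨S, hS0, hS1⟩ := s_dctN Pool.Agent.W45.PC.s_indep Pool.Agent.W45.PC.s_depmeas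
    Pool.Agent.W400.PC.s_mono Pool.Agent.W975.PC.s_reach_meas Pool.Agent.W975.PC.s_perc_meas
    m s p a q hp h1' h3
  exact low_of_phi hs hS0 hS1

lemma small_mem (n : ℕ) : (1 : ℝ) / (4 * (n + 1)) ∈ Icc (0 : ℝ) 1 := by
  have hn : (0 : ℝ) < 4 * (n + 1) := by positivity
  refine ⟨by positivity, ?_⟩
  rw [div_le_one hn]
  have : (0 : ℝ) ≤ n := Nat.cast_nonneg n
  linarith

theorem pcZM_pos (a : unitInterval) : 0 < pcZM n a := by
  have hn : (0 : ℝ) < 4 * (n + 1) := by positivity
  have h1 : theta n a ⟨_, small_mem n⟩ 0 2 1 = 0 := by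
    apply theta_zero_of_small (by norm_num)
    simp only [lrp_zero]
    simp only [Set.Icc.coe_zero, tsum_zero, mul_zero, add_zero]
    have h2 : 2 * ((n : ℝ) + 1) * (1 / (4 * (n + 1))) = 1 / 2 := by
      field_simp; ring
    rw [h2]
    linarith [a.2.2]
  rw [theta_zero_eq] at h1
  have h2 : (⟨_, small_mem n⟩ : unitInterval) ≤ pcZM n a :=
    le_crit (f := fun p => thetaZ n a p) h1
  refine lt_of_lt_of_le ?_ h2
  show (0 : ℝ) < 1 / (4 * (n + 1))
  positivity

theorem acZM_pos (p : unitInterval) : 0 < acZM n p := by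
  have hn : (0 : ℝ) < 4 * (n + 1) := by positivity
  have h1 : theta n ⟨_, small_mem n⟩ p 0 2 1 = 0 := by
    apply theta_zero_of_small (by norm_num)
    simp only [lrp_zero]
    simp only [Set.Icc.coe_zero, tsum_zero, mul_zero, add_zero]
    have h2 : 1 / (4 * ((n : ℝ) + 1)) * (2 * (n + 1) * p) = p / 2 := by
      field_simp; ring
    rw [h2]
    linarith [p.2.2]
  rw [theta_zero_eq] at h1
  have h2 : (⟨_, small_mem n⟩ : unitInterval) ≤ acZM n p :=
    le_crit (f := fun a => thetaZ n a p) h1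
  refine lt_of_lt_of_le ?_ h2
  show (0 : ℝ) < 1 / (4 * (n + 1))
  positivity

theorem pcM_le (m : ℕ) (s : ℝ) (β : NNReal) (a : unitInterval) : pcM n m s β a ≤ pcZM n a := by
  rw [← pcM_at_zero m s a]
  show (pcM n m s β a : ℝ) ≤ pcM n m s 0 a
  refine crit_le (pcM n m s 0 a).2.1 (fun q hq => ?_)
  have h1 : theta n a q 0 s m = 0 := by
    apply le_antisymm _ (theta_nonneg _ _ _ _ _)
    have := theta_mono (n := n) (le_refl a) (le_refl q) (show (0 : NNReal) ≤ β from zero_le) s m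
    have h2 : theta n a q β s m = 0 := hq
    linarith
  exact le_crit (f := fun p => theta n a p 0 s m) h1

theorem acM_le (m : ℕ) (s : ℝ) (β : NNReal) (p : unitInterval) : acM n m s β p ≤ acZM n p := by
  rw [← acM_at_zero m s p]
  show (acM n m s β p : ℝ) ≤ acM n m s 0 p
  refine crit_le (acM n m s 0 p).2.1 (fun q hq => ?_)
  have h1 : theta n q p 0 s m = 0 := by
    apply le_antisymm _ (theta_nonneg _ _ _ _ _)
    have := theta_mono (n := n) (le_refl q) (le_refl p) (show (0 : NNReal) ≤ β from zero_le) s m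
    have h2 : theta n q p β s m = 0 := hq
    linarith
  exact le_crit (f := fun a => theta n a p 0 s m) h1

/-- **Convergence of the critical bond probabilities**, sites of density `a`. -/
theorem pcM_tendsto {m : ℕ} {s : ℝ} (hs : 1 < s) {a : unitInterval} (ha : 0 < a) :
    Tendsto (fun β : NNReal => (pcM n m s β a : ℝ)) (𝓝 0) (𝓝 (pcZM n a : ℝ)) := by
  rw [Metric.tendsto_nhds]
  intro ε hε
  have hpos : (0 : ℝ) < pcZM n a := pcZM_pos a
  set x : ℝ := max ((pcZM n a : ℝ) - ε / 2) 0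
  have hx0 : 0 ≤ x := le_max_right _ _
  have hx1 : x < pcZM n a := max_lt (by linarith) hpos
  have hx2 : x ≤ 1 := hx1.le.trans (pcZM n a).2.2
  obtain ⟨β0, hβ0, h⟩ := bond_lowM (m := m) hs (p := ⟨x, hx0, hx2⟩) ha hx1
  have hev : ∀ᶠ β : NNReal in 𝓝 0, β ≤ β0 := Iic_mem_nhds hβ0
  filter_upwards [hev] with β hβ
  have h1 : (⟨x, hx0, hx2⟩ : unitInterval) ≤ pcM n m s β a :=
    le_crit (f := fun p => theta n a p β s m) (h β hβ)
  have h1' : x ≤ pcM n m s β a := h1
  have h2 : (pcM n m s β a : ℝ) ≤ pcZM n a := pcM_le m s β a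
  have h3 := le_max_left ((pcZM n a : ℝ) - ε / 2) 0
  rw [Real.dist_eq, abs_lt]
  constructor <;> linarith

/-- **Convergence of the critical site densities**, bonds of probability `p`. -/
theorem acM_tendsto {m : ℕ} {s : ℝ} (hs : 1 < s) {p : unitInterval} (hp : 0 < p) :
    Tendsto (fun β : NNReal => (acM n m s β p : ℝ)) (𝓝 0) (𝓝 (acZM n p : ℝ)) := by
  rw [Metric.tendsto_nhds]
  intro ε hε
  have hpos : (0 : ℝ) < acZM n p := acZM_pos p
  set x : ℝ := max ((acZM n p : ℝ) - ε / 2) 0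
  have hx0 : 0 ≤ x := le_max_right _ _
  have hx1 : x < acZM n p := max_lt (by linarith) hpos
  have hx2 : x ≤ 1 := hx1.le.trans (acZM n p).2.2
  obtain ⟨β0, hβ0, h⟩ := site_lowM (m := m) hs (a := ⟨x, hx0, hx2⟩) hp hx1
  have hev : ∀ᶠ β : NNReal in 𝓝 0, β ≤ β0 := Iic_mem_nhds hβ0
  filter_upwards [hev] with β hβ
  have h1 : (⟨x, hx0, hx2⟩ : unitInterval) ≤ acM n m s β p :=
    le_crit (f := fun a => theta n a p β s m) (h β hβ)
  have h1' : x ≤ acM n m s β p := h1
  have h2 : (acM n m s β p : ℝ) ≤ acZM n p := acM_le m s β p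
  have h3 := le_max_left ((acZM n p : ℝ) - ε / 2) 0
  rw [Real.dist_eq, abs_lt]
  constructor <;> linarith

/-- For small `β > 0` there is no percolation at the critical bond probability, which is positive. -/
theorem bond_absenceM {m : ℕ} {s : ℝ} (hn : 1 ≤ n) (hm : 1 ≤ m) (hs : 1 < s) (hs2 : s < 2)
    {a : unitInterval} (ha : 0 < a) : ∃ β0 : NNReal, 0 < β0 ∧ ∀ β : NNReal, 0 < β → β ≤ β0 →
      0 < pcM n m s β a ∧
      ∀ᵐ ω ∂(pm (prob (n := n) a (pcM n m s β a) β s m)), ∀ x, (cl (EdI m) ω univ x).Finite := by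
  obtain ⟨β0, hβ0, h⟩ := bond_lowM (m := m) hs (p := 0) ha (pcZM_pos (n := n) a)
  have hev := (Metric.tendsto_nhds.mp (pcM_tendsto (n := n) (m := m) hs ha)) (pcZM n a : ℝ)
    (pcZM_pos a)
  rw [Metric.eventually_nhds_iff] at hev
  obtain ⟨r, hr, h1⟩ := hev
  refine ⟨⟨r / 2, by positivity⟩, by show (0 : ℝ) < r / 2; positivity, fun β hβ hβ1 => ?_⟩
  have hβr : dist β 0 < r := by
    rw [NNReal.dist_eq]
    have h2 : (β : ℝ) ≤ r / 2 := hβ1
    have h3 : (0 : ℝ) ≤ β := β.2
    simp only [NNReal.coe_zero, sub_zero, abs_of_nonneg h3]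
    linarith
  have h2 := h1 hβr
  rw [Real.dist_eq] at h2
  have h3 : 0 < pcM n m s β a := by
    show (0 : ℝ) < pcM n m s β a
    have := (abs_lt.mp h2).1
    linarith
  exact ⟨h3, pcM_ae hn hm hs hs2 hβ ha h3⟩

/-- Finite-range models near nearest-neighbour percolation with sites of density `a`, with a small
percolation probability at the critical bond probability. -/
theorem bond_finiteM {m : ℕ} {s : ℝ} (hn : 1 ≤ n) (hm : 1 ≤ m) (hs : 1 < s) (hs2 : s < 2)
    {a : unitInterval} (ha : 0 < a) {ε : ℝ} (hε : 0 < ε) :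
    ∃ β0 : NNReal, 0 < β0 ∧ ∀ β : NNReal, 0 < β → β ≤ β0 → ∃ K0 : ℕ, ∀ K ≥ K0,
      |(pcMK n m s β a K : ℝ) - pcZM n a| ≤ ε ∧
        thetaK n a (pcMK n m s β a K) β s m K ≤ ε := by
  have hpos' : (0 : ℝ) < pcZM n a := pcZM_pos a
  have h1 := (Metric.tendsto_nhds.mp (pcM_tendsto (n := n) (m := m) hs ha))
    (min (ε / 2) (pcZM n a : ℝ)) (by positivity)
  rw [Metric.eventually_nhds_iff] at h1
  obtain ⟨r, hr, h1⟩ := h1
  refine ⟨⟨r / 2, by positivity⟩, by show (0 : ℝ) < r / 2; positivity, fun β hβ hβ0 => ?_⟩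
  have hβr : dist β 0 < r := by
    rw [NNReal.dist_eq]
    have h2 : (β : ℝ) ≤ r / 2 := hβ0
    have h3 : (0 : ℝ) ≤ β := β.2
    simp only [NNReal.coe_zero, sub_zero, abs_of_nonneg h3]
    linarith
  have h2 := h1 hβr
  rw [Real.dist_eq] at h2
  have h3 := h2.trans_le (min_le_left _ _)
  have h4 := h2.trans_le (min_le_right _ _)
  have hpc : 0 < pcM n m s β a := by
    show (0 : ℝ) < pcM n m s β a
    have := (abs_lt.mp h4).1
    linarith
  have h5 := (Metric.tendsto_nhds.mp (pcMK_tendsto hn hm hs hs2 hβ ha hpc)) (ε / 2) (by positivity)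
  have h6 := (Metric.tendsto_nhds.mp (thetaKpc_tendsto hn hm hs hs2 hβ ha hpc)) ε hε
  obtain ⟨K0, hK0⟩ := eventually_atTop.mp (h5.and h6)
  refine ⟨K0, fun K hK => ?_⟩
  obtain ⟨h7, h8⟩ := hK0 K hK
  rw [Real.dist_eq] at h7 h8
  constructor
  · have := abs_sub_le (pcMK n m s β a K : ℝ) (pcM n m s β a) (pcZM n a)
    linarith
  · rw [sub_zero] at h8
    exact (le_abs_self _).trans h8.le

/-- Finite-range models near nearest-neighbour percolation with bonds of probability `p`, with a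
small percolation probability at the critical density of the sites. -/
theorem site_finiteM {m : ℕ} {s : ℝ} (hn : 1 ≤ n) (hm : 1 ≤ m) (hs : 1 < s) (hs2 : s < 2)
    {p : unitInterval} (hp : 0 < p) {ε : ℝ} (hε : 0 < ε) :
    ∃ β0 : NNReal, 0 < β0 ∧ ∀ β : NNReal, 0 < β → β ≤ β0 → ∃ K0 : ℕ, ∀ K ≥ K0,
      |(acMK n m s β p K : ℝ) - acZM n p| ≤ ε ∧
        thetaK n (acMK n m s β p K) p β s m K ≤ ε := by
  have h1 := (Metric.tendsto_nhds.mp (acM_tendsto (n := n) (m := m) hs hp)) (ε / 2)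
    (by positivity)
  rw [Metric.eventually_nhds_iff] at h1
  obtain ⟨r, hr, h1⟩ := h1
  refine ⟨⟨r / 2, by positivity⟩, by show (0 : ℝ) < r / 2; positivity, fun β hβ hβ0 => ?_⟩
  have hβr : dist β 0 < r := by
    rw [NNReal.dist_eq]
    have h2 : (β : ℝ) ≤ r / 2 := hβ0
    have h3 : (0 : ℝ) ≤ β := β.2
    simp only [NNReal.coe_zero, sub_zero, abs_of_nonneg h3]
    linarith
  have h3 := h1 hβr
  rw [Real.dist_eq] at h3
  have h5 := (Metric.tendsto_nhds.mp (acMK_tendsto hn hm hs hs2 hβ hp)) (ε / 2) (by positivity)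
  have h6 := (Metric.tendsto_nhds.mp (thetaKM_tendsto hn hm hs hs2 hβ hp)) ε hε
  obtain ⟨K0, hK0⟩ := eventually_atTop.mp (h5.and h6)
  refine ⟨K0, fun K hK => ?_⟩
  obtain ⟨h7, h8⟩ := hK0 K hK
  rw [Real.dist_eq] at h7 h8
  constructor
  · have := abs_sub_le (acMK n m s β p K : ℝ) (acM n m s β p) (acZM n p)
    linarith
  · rw [sub_zero] at h8
    exact (le_abs_self _).trans h8.le

end

end TH526.PM
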