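import Pool.Agent.W376.PC.SimonS
import Pool.Agent.TH526.PM.DctM

set_option autoImplicit false

open MeasureTheory Set

/-!
Simon-Lieb inequality for mixed percolation (adapted from the site version, helper376; the
one-step inequality `step` is the same).
-/

namespace TH526.PM

open Pool.Agent.W783.PC
open Pool.Agent.W402.PC (pm_coord bern_true reach_iff reach_mono reach_mem last_exit dep_meas
  fin_pairs prob_summable reach_univ)
open Pool.Agent.W376.PC.SimonS (QE Q Q_nonneg Q_le_one Q_mono Q_zero step)

noncomputable section

open scoped Classical in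
lemma phiM_eq {n : ℕ} (a p : unitInterval) (β : NNReal) (s : ℝ) (m : ℕ) (S : Finset (V n))
    (x : V n) : phiM a p β s m S x =
      ∑ y ∈ S, (pm (prob (n := n) a p β s m)).real {ω | ω (Sum.inl x) = true ∧
          (G (EdI m) ω (S : Set (V n))).Reachable x y} *
        ∑' z : V n, if z ∈ S then 0 else (prob (n := n) a p β s m (Sum.inr s(y, z)) : ℝ) := by
  unfold phiM Pool.Agent.W613.PC.Ph
  refine Finset.sum_congr rfl fun y _ => ?_
  congr 2
  ext ω
  simp [Pool.Agent.W613.PC.AA]

open scoped Classical in
/-- Bound for finite regions. -/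
lemma region_bound {n m : ℕ} (h1 : S_indep) (h2 : S_depmeas) (hH : S_harris) (a p : unitInterval)
    (β : NNReal)
    (s : ℝ) (hs : 1 < s) (S : Finset (V n)) (ρ : ℝ) (h0 : 0 ∈ S) (hρ : ρ < 1)
    (hphi : ∀ x : V n, phiM a p β s m (S.map (addRightEmbedding x)) x ≤ ρ) (R : Finset (V n))
    (x : V n) (hx : x ∈ R) :
    ∑ w ∈ R, Q (prob a p β s m) (EdI m) (R : Set (V n)) x w ≤ S.card / (1 - ρ) := by
  set r : Ix n → unitInterval := prob a p β s m with hr
  set X : V n → ℝ := fun x => ∑ w ∈ R, Q r (EdI m) (R : Set (V n)) x w with hX
  have hX0 : ∀ z, 0 ≤ X z := fun z => Finset.sum_nonneg (fun w _ => Q_nonneg _ _ _ _ _)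
  set M : ℝ := R.sup' ⟨x, hx⟩ X with hM
  have hXM : ∀ z ∈ R, X z ≤ M := fun z hz => Finset.le_sup' X hz
  have hM0 : 0 ≤ M := (hX0 x).trans (hXM x hx)
  have hstep : ∀ z ∈ R, X z ≤ S.card + ρ * M := by
    intro z hz
    set T : Finset (V n) := S.map (addRightEmbedding z) with hT
    have hzT : z ∈ T := by
      rw [hT, Finset.mem_map]
      exact ⟨0, h0, by simp⟩
    have hcard : T.card = S.card := by rw [hT, Finset.card_map]
    have e1 : X z ≤ ∑ w ∈ R, (Q r (EdI m) T z w + ∑ y ∈ T, ∑ v ∈ R \ T,
        Q r (EdI m) T z y * (r (Sum.inr s(y, v)) : ℝ) * Q r (EdI m) R v w) :=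
      Finset.sum_le_sum (fun w _ => step h1 h2 hH r (EdI m) T R z w hzT)
    have e2 : ∑ w ∈ R, Q r (EdI m) T z w ≤ S.card := by
      rw [← hcard]
      calc ∑ w ∈ R, Q r (EdI m) T z w ≤ ∑ w ∈ R, if w ∈ T then (1 : ℝ) else 0 := by
            apply Finset.sum_le_sum
            intro w _
            split_ifs with hw
            · exact Q_le_one _ _ _ _ _
            · rw [Q_zero r (EdI m) (by exact_mod_cast hzT) (by exact_mod_cast hw)]
        _ = ((R.filter (fun w => w ∈ T)).card : ℝ) := by
            rw [Finset.sum_ite, Finset.sum_const, Finset.sum_const_zero, add_zero, nsmul_eq_mul,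
              mul_one]
        _ ≤ T.card := by
            have : R.filter (fun w => w ∈ T) ⊆ T := by
              intro w hw
              exact (Finset.mem_filter.1 hw).2
            exact_mod_cast Finset.card_le_card this
    have e3 : ∑ w ∈ R, ∑ y ∈ T, ∑ v ∈ R \ T,
        Q r (EdI m) T z y * (r (Sum.inr s(y, v)) : ℝ) * Q r (EdI m) R v w ≤ ρ * M := by
      calc ∑ w ∈ R, ∑ y ∈ T, ∑ v ∈ R \ T,
          Q r (EdI m) T z y * (r (Sum.inr s(y, v)) : ℝ) * Q r (EdI m) R v w
          = ∑ y ∈ T, ∑ v ∈ R \ T, Q r (EdI m) T z y * (r (Sum.inr s(y, v)) : ℝ) * X v := by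
            rw [Finset.sum_comm]
            apply Finset.sum_congr rfl
            intro y _
            rw [Finset.sum_comm]
            apply Finset.sum_congr rfl
            intro v _
            rw [← Finset.mul_sum]
        _ ≤ ∑ y ∈ T, ∑ v ∈ R \ T, Q r (EdI m) T z y * (r (Sum.inr s(y, v)) : ℝ) * M := by
            apply Finset.sum_le_sum
            intro y _
            apply Finset.sum_le_sum
            intro v hv
            have h3 := hXM v (Finset.mem_sdiff.1 hv).1
            have h4 := Q_nonneg r (EdI m) T z y
            have h5 := (r (Sum.inr s(y, v))).2.1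
            gcongr
        _ = (∑ y ∈ T, Q r (EdI m) T z y * ∑ v ∈ R \ T, (r (Sum.inr s(y, v)) : ℝ)) * M := by
            rw [Finset.sum_mul]
            apply Finset.sum_congr rfl
            intro y _
            rw [Finset.mul_sum, Finset.sum_mul]
        _ ≤ ρ * M := by
            apply mul_le_mul_of_nonneg_right _ hM0
            refine le_trans ?_ ((phiM_eq a p β s m _ z).ge.trans (hphi z))
            apply Finset.sum_le_sum
            intro y _
            show (pm r).real {ω | ω (Sum.inl z) = true ∧
              (G (EdI m) ω (T : Set (V n))).Reachable z y} * _ ≤ _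
            apply mul_le_mul_of_nonneg_left _ measureReal_nonneg
            have hsm : Summable (fun v : V n => if v ∈ T then (0 : ℝ) else
                (r (Sum.inr s(y, v)) : ℝ)) := by
              apply Summable.of_nonneg_of_le _ _ (prob_summable (m := m) a p β s hs y)
              · intro v
                split_ifs
                · exact le_refl _
                · exact (r _).2.1
              · intro v
                split_ifs
                · exact (r _).2.1
                · exact le_refl _
            refine le_trans (le_of_eq ?_) (hsm.sum_le_tsum (R \ T) ?_)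
            · apply Finset.sum_congr rfl
              intro v hv
              rw [if_neg (Finset.mem_sdiff.1 hv).2]
            · intro v _
              split_ifs
              · exact le_refl _
              · exact (r _).2.1
    rw [Finset.sum_add_distrib] at e1
    linarith
  have hMle : M ≤ S.card + ρ * M := Finset.sup'_le _ _ hstep
  have h3 : M ≤ S.card / (1 - ρ) := by
    rw [le_div_iff₀ (by linarith)]
    linarith
  exact (hXM x hx).trans h3

theorem s_simonM (h1 : S_indep) (h2 : S_depmeas) (hH : S_harris) (n m : ℕ) (a p : unitInterval)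
    (β : NNReal) (s : ℝ) (hs : 1 < s) (S : Finset (V n)) (ρ : ℝ) (h0 : 0 ∈ S) (hρ : ρ < 1)
    (hphi : ∀ x : V n, phiM a p β s m (S.map (addRightEmbedding x)) x ≤ ρ) (x : V n) :
    (pm (prob (n := n) a p β s m)).real (Perc (EdI m) x) = 0 := by
  classical
  set r : Ix n → unitInterval := prob a p β s m with hr
  set K : ℝ := S.card / (1 - ρ) with hK
  have hfin : ∀ F : Finset (V n), ∑ w ∈ F,
      pm r (QE (EdI m) univ x w) ≤ ENNReal.ofReal K := by
    intro F
    have e1 : ∀ w, pm r (QE (EdI m) univ x w) =
        ⨆ R : Finset (V n), pm r (QE (EdI m) (R : Set (V n)) x w) := by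
      intro w
      rw [← Directed.measure_iUnion]
      · congr 1
        ext ω
        simp only [mem_iUnion]
        constructor
        · intro h
          obtain ⟨R, hR⟩ := reach_univ h.2
          exact ⟨R, h.1, hR⟩
        · rintro ⟨R, hR⟩
          exact ⟨hR.1, reach_mono (subset_univ _) hR.2⟩
      · intro R R'
        refine ⟨R ∪ R', ?_, ?_⟩
        · intro ω hω
          exact ⟨hω.1, reach_mono (by simp) hω.2⟩
        · intro ω hω
          exact ⟨hω.1, reach_mono (by simp) hω.2⟩
    simp_rw [e1]
    rw [ENNReal.finsetSum_iSup_of_monotone]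
    · apply iSup_le
      intro R
      set R' : Finset (V n) := R ∪ F ∪ {x} with hR'
      calc ∑ w ∈ F, pm r (QE (EdI m) (R : Set (V n)) x w)
          ≤ ∑ w ∈ R', pm r (QE (EdI m) (R' : Set (V n)) x w) := by
            refine le_trans (Finset.sum_le_sum (g := fun w =>
              pm r (QE (EdI m) (R' : Set (V n)) x w)) ?_) ?_
            · intro w _
              apply measure_mono
              intro ω hω
              refine ⟨hω.1, reach_mono ?_ hω.2⟩
              rw [hR']
              intro v hv
              simp only [Finset.coe_union, mem_union]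
              exact Or.inl (Or.inl hv)
            · apply Finset.sum_le_sum_of_subset
              rw [hR']
              intro v hv
              simp [hv]
        _ = ENNReal.ofReal (∑ w ∈ R', Q r (EdI m) (R' : Set (V n)) x w) := by
            rw [ENNReal.ofReal_sum_of_nonneg (fun w _ => Q_nonneg _ _ _ _ _)]
            apply Finset.sum_congr rfl
            intro w _
            rw [Q, ofReal_measureReal]
        _ ≤ ENNReal.ofReal K := by
            apply ENNReal.ofReal_le_ofReal
            exact region_bound h1 h2 hH a p β s hs S ρ h0 hρ hphi R' x (by simp [hR'])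
    · intro w R R' hRR'
      apply measure_mono
      intro ω hω
      exact ⟨hω.1, reach_mono (by exact_mod_cast hRR') hω.2⟩
  have hsum : ∑' w, pm r (QE (EdI m) univ x w) ≠ ⊤ := by
    rw [ENNReal.tsum_eq_iSup_sum]
    exact ne_top_of_le_ne_top ENNReal.ofReal_ne_top (iSup_le hfin)
  have hae := ae_finite_setOfPred_mem hsum
  rw [Measure.real]
  have h3 : pm r (Perc (EdI m) x) = 0 := by
    rw [← nonpos_iff_eq_zero, ← ae_iff.1 hae]
    apply measure_mono
    intro ω hω hfin'
    have hω' : (cl (EdI m) ω univ x).Infinite := hω
    have hxo : ω (Sum.inl x) = true := by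
      by_contra hx
      apply hω'
      apply (Set.finite_singleton x).subset
      intro v hv
      have hv' : (G (EdI m) ω univ).Reachable x v := hv
      rw [reach_iff] at hv'
      rcases Relation.ReflTransGen.cases_head hv' with h | ⟨b, hb, _⟩
      · exact h.symm
      · exact absurd hb.2.2.2.2.1 hx
    apply hω'
    apply hfin'.subset
    intro v hv
    exact ⟨hxo, hv⟩
  rw [h3, ENNReal.toReal_zero]

end

end TH526.PM
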